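import Pool.Agent.Helper60.FM.Defs

/-!
Definitions for theorem G (even representations with arbitrary residual representation).
The fields `Qb`, `GQ` and the predicates `Unr`, `UnramAt`, `IsCC` are those of helper60.
-/

namespace Helper27.FMEven

open NumberField Pointwise Pool.Agent.Helper60.FM

theorem isAlgClosure_aux : ∀ a : Algebra ℚ (AlgebraicClosure ℚ),
    @IsAlgClosure ℚ (AlgebraicClosure ℚ) _ _ a _ := by
  intro a
  have h : a = AlgebraicClosure.instAlgebra (k := ℚ) (R := ℚ) := Subsingleton.elim _ _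
  rw [h]
  infer_instance

instance : IsAlgClosure ℚ Qb := isAlgClosure_aux _

/-- The matrix `a` is scalar. -/
def IsScal {E : Type*} [Field E] (a : GL (Fin 2) E) : Prop :=
  ∃ t : E, (a : Matrix (Fin 2) (Fin 2) E) = Matrix.scalar (Fin 2) t

/-- A (continuous) homomorphism from the subgroup `H` of `G` to `ℤ/p`, given as a function
on `G` (its values outside `H` do not matter). -/
structure HomOn {G : Type*} [Group G] [TopologicalSpace G] (H : Subgroup G) (p : ℕ)
    (φ : G → ZMod p) : Prop where
  add : ∀ g ∈ H, ∀ h ∈ H, φ (g * h) = φ g + φ h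
  cont : ∃ U : Subgroup G, IsOpen (U : Set G) ∧ ∀ u ∈ U, u ∈ H → φ u = 0

/-- No ideal class of `K` other than 1 is killed by `p` and by `1 + c`, `c` the complex
conjugation (in other words `p` does not divide the relative class number of `K`). -/
def NoMinusClass (p : ℕ) (K : IntermediateField ℚ Qb) [FiniteDimensional ℚ K]
    [IsCMField K] : Prop :=
  ∀ c : Gal(K/ℚ), (∀ x : K, c x = IsCMField.complexConj K x) → ∀ 𝔞 : Ideal (𝓞 K),
    (𝔞 ^ p).IsPrincipal → (𝔞 * c • 𝔞).IsPrincipal → 𝔞.IsPrincipal

/-- Every prime of `K` above a prime number in `S` is fixed by the complex conjugation. -/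
def NonSplit (S : Set ℕ) (K : IntermediateField ℚ Qb) [FiniteDimensional ℚ K]
    [IsCMField K] : Prop :=
  ∀ c : Gal(K/ℚ), (∀ x : K, c x = IsCMField.complexConj K x) → ∀ P : Ideal (𝓞 K),
    P.IsPrime → P ≠ ⊥ → (∃ l ∈ S, (l : 𝓞 K) ∈ P) → c • P = P

end Helper27.FMEven
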