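import Pool.Agent.Helper27.FMEven.Defs

/-! K1: Kummer theory. -/

namespace Helper27.FMEven

open NumberField Pointwise Pool.Agent.Helper60.FM

theorem pow_val_add {F : Type*} [Field F] {p : ℕ} [NeZero p] (ζ : F) (hζ : ζ ^ p = 1)
    (a b : ZMod p) : ζ ^ (a + b).val = ζ ^ a.val * ζ ^ b.val := by
  rw [ZMod.val_add, ← pow_add, ← pow_eq_pow_mod _ hζ]

theorem HomOn.map_one {G : Type*} [Group G] [TopologicalSpace G] {H : Subgroup G} {p : ℕ}
    {φ : G → ZMod p} (h : HomOn H p φ) : φ 1 = 0 := by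
  have := h.add 1 H.one_mem 1 H.one_mem
  rw [mul_one] at this
  exact left_eq_add.mp this

theorem HomOn.map_inv {G : Type*} [Group G] [TopologicalSpace G] {H : Subgroup G} {p : ℕ}
    {φ : G → ZMod p} (h : HomOn H p φ) {g : G} (hg : g ∈ H) : φ g⁻¹ = - φ g := by
  have := h.add g⁻¹ (H.inv_mem hg) g hg
  rw [inv_mul_cancel, h.map_one] at this
  exact eq_neg_of_add_eq_zero_left this.symm

theorem HomOn.map_pow {G : Type*} [Group G] [TopologicalSpace G] {H : Subgroup G} {p : ℕ}
    {φ : G → ZMod p} (h : HomOn H p φ) {g : G} (hg : g ∈ H) (n : ℕ) :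
    φ (g ^ n) = n * φ g := by
  induction n with
  | zero => simp [h.map_one]
  | succ n ih => rw [pow_succ, h.add _ (H.pow_mem hg n) _ hg, ih]; push_cast; ring

theorem normal_cast {X : Type*} [Field X] (a b : Algebra ℚ X) (h : @Normal ℚ X _ _ a) :
    @Normal ℚ X _ _ b := by
  rw [Subsingleton.elim b a]
  exact h

theorem galois_cast {X : Type*} [Field X] (a b : Algebra ℚ X) (h : @IsGalois ℚ _ X _ a) :
    @IsGalois ℚ _ X _ b := by
  rw [Subsingleton.elim b a]
  exact h

/-- an open subgroup of `GQ` contains the group of a finite Galois extension containing `K` -/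
theorem exists_galois_le (K : IntermediateField ℚ Qb) [FiniteDimensional ℚ K] [IsGalois ℚ K]
    (U : Subgroup GQ) (hU : IsOpen (U : Set GQ)) :
    ∃ N : IntermediateField ℚ Qb, FiniteDimensional ℚ N ∧ IsGalois ℚ N ∧ K ≤ N ∧
      N.fixingSubgroup ≤ U := by
  have h1 : (U : Set GQ) ∈ nhds (1 : GQ) := hU.mem_nhds U.one_mem
  obtain ⟨L, hL1, hL2, hL3⟩ := (krullTopology_mem_nhds_one_iff_of_normal ℚ Qb (U : Set GQ)).1 h1
  have h2 : IsGalois ℚ L := by
    have := normal_cast _ DivisionRing.toRatAlgebra hL2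
    exact ⟨⟩
  have h3 : FiniteDimensional ℚ (K ⊔ L : IntermediateField ℚ Qb) :=
    IntermediateField.finiteDimensional_sup K L
  have h4 : IsGalois ℚ (K ⊔ L : IntermediateField ℚ Qb) := by
    have a1 := galois_cast _ K.algebra' ‹IsGalois ℚ K›
    have a2 := galois_cast _ L.algebra' h2
    have a3 : @IsGalois ℚ _ (K ⊔ L : IntermediateField ℚ Qb) _ (K ⊔ L).algebra' := inferInstance
    exact galois_cast _ _ a3
  refine ⟨K ⊔ L, h3, h4, le_sup_left, ?_⟩
  intro g hg
  apply hL3
  exact IntermediateField.fixingSubgroup_le le_sup_right hg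

/-- A homomorphism `Gal(Qb/K) → ℤ/p` comes from a p-th root. -/
theorem exists_kummer (p : ℕ) [Fact p.Prime] (K : IntermediateField ℚ Qb)
    [FiniteDimensional ℚ K] [IsGalois ℚ K] (ζ : K) (hζ : IsPrimitiveRoot ζ p)
    (φ : GQ → ZMod p) (hφ : HomOn K.fixingSubgroup p φ) :
    ∃ β : Qb, β ≠ 0 ∧ ∀ h ∈ K.fixingSubgroup, h β = (ζ : Qb) ^ (φ h).val * β := by
  classical
  obtain ⟨U, hUo, hU⟩ := hφ.cont
  obtain ⟨N, hN1, hN2, hKN, hNU⟩ := exists_galois_le K U hUo
  have hζp : (ζ : Qb) ^ p = 1 := by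
    have := hζ.pow_eq_one
    exact_mod_cast congrArg (algebraMap K Qb) this
  set H := K.fixingSubgroup with hH
  have hNH : N.fixingSubgroup ≤ H := IntermediateField.fixingSubgroup_le hKN
  -- a section of the restriction
  have hsurj : Function.Surjective (AlgEquiv.restrictNormalHom (F := ℚ) (K₁ := Qb) N) :=
    AlgEquiv.restrictNormalHom_surjective Qb
  choose lift hlift using hsurj
  have hker : ∀ g : GQ, AlgEquiv.restrictNormalHom (F := ℚ) (K₁ := Qb) N g = 1 →
      g ∈ N.fixingSubgroup := by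
    intro g hg
    rw [IntermediateField.mem_fixingSubgroup_iff]
    intro x hx
    have := AlgEquiv.restrictNormal_commutes g N ⟨x, hx⟩
    have h2 : g.restrictNormal N = 1 := hg
    rw [h2] at this
    exact this.symm
  let T : Finset (Gal(N/ℚ)) := Finset.univ.filter (fun σ => lift σ ∈ H)
  have h1T : (1 : Gal(N/ℚ)) ∈ T := by
    simp only [T, Finset.mem_filter, Finset.mem_univ, true_and]
    exact hNH (hker _ (hlift 1))
  -- the resolvent
  let B : N → Qb := fun θ => ∑ σ ∈ T, (ζ : Qb) ^ (-φ (lift σ)).val * ((σ θ : N) : Qb)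
  have hB : ∃ θ : N, B θ ≠ 0 := by
    by_contra hcon
    push Not at hcon
    have hli := linearIndependent_monoidHom N Qb
    let e : Gal(N/ℚ) → (N →* Qb) := fun σ =>
      { toFun := fun x => ((σ x : N) : Qb)
        map_one' := by rw [_root_.map_one]; rfl
        map_mul' := fun x y => by rw [_root_.map_mul]; rfl }
    have hinj : Function.Injective e := by
      intro σ τ h
      ext x
      exact DFunLike.congr_fun h x
    have hli2 := hli.comp _ hinj
    rw [Fintype.linearIndependent_iff] at hli2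
    have := hli2 (fun σ => if σ ∈ T then (ζ : Qb) ^ (-φ (lift σ)).val else 0) (by
      funext θ
      have h3 := hcon θ
      simp only [B] at h3
      simp only [ite_smul, zero_smul, Finset.sum_ite_mem, Finset.univ_inter]
      rw [Finset.sum_apply, Pi.zero_apply, ← h3]
      rfl) 1
    rw [if_pos h1T] at this
    have hne : (ζ : Qb) ≠ 0 := by
      intro h0
      rw [h0, zero_pow (Fact.out : p.Prime).ne_zero] at hζp
      exact zero_ne_one hζp
    exact pow_ne_zero _ hne this
  obtain ⟨θ, hθ⟩ := hB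
  refine ⟨B θ, hθ, ?_⟩
  intro h hh
  have hζh : h (ζ : Qb) = ζ := (IntermediateField.mem_fixingSubgroup_iff K h).1 hh _ ζ.2
  set r := AlgEquiv.restrictNormalHom (F := ℚ) (K₁ := Qb) N h with hr
  have hcomm : ∀ x : N, h (x : Qb) = ((r x : N) : Qb) := by
    intro x
    exact (AlgEquiv.restrictNormal_commutes h N x).symm
  have hu : ∀ σ : Gal(N/ℚ), (h * lift σ)⁻¹ * lift (r * σ) ∈ N.fixingSubgroup := by
    intro σ
    apply hker
    rw [_root_.map_mul, _root_.map_inv, _root_.map_mul, hlift, hlift, ← hr]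
    group
  have hrT : ∀ σ, σ ∈ T ↔ r * σ ∈ T := by
    intro σ
    simp only [T, Finset.mem_filter, Finset.mem_univ, true_and]
    have h1 := hNH (hu σ)
    have h2 : lift (r * σ) = h * lift σ * ((h * lift σ)⁻¹ * lift (r * σ)) := by group
    constructor
    · intro h3
      rw [h2]
      exact H.mul_mem (H.mul_mem hh h3) h1
    · intro h3
      rw [h2] at h3
      have h4 := (H.mul_mem_cancel_right h1).1 h3
      exact (H.mul_mem_cancel_left hh).1 h4
  have hφr : ∀ σ ∈ T, φ (lift (r * σ)) = φ h + φ (lift σ) := by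
    intro σ hσ
    simp only [T, Finset.mem_filter, Finset.mem_univ, true_and] at hσ
    have h1 := hNH (hu σ)
    have h2 : lift (r * σ) = h * lift σ * ((h * lift σ)⁻¹ * lift (r * σ)) := by group
    rw [h2, hφ.add _ (H.mul_mem hh hσ) _ h1, hφ.add _ hh _ hσ, hU _ (hNU (hu σ)) h1, add_zero]
  calc h (B θ) = ∑ σ ∈ T, (ζ : Qb) ^ (-φ (lift σ)).val * (((r * σ) θ : N) : Qb) := by
        simp only [B, map_sum, _root_.map_mul, _root_.map_pow, hζh]
        refine Finset.sum_congr rfl fun σ _ => ?_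
        rw [hcomm]
        rfl
    _ = ∑ σ ∈ T, (ζ : Qb) ^ (φ h).val *
          ((ζ : Qb) ^ (-φ (lift (r * σ))).val * (((r * σ) θ : N) : Qb)) := by
        refine Finset.sum_congr rfl fun σ hσ => ?_
        rw [hφr σ hσ, ← mul_assoc, ← pow_val_add _ hζp]
        congr 3
        ring
    _ = (ζ : Qb) ^ (φ h).val * B θ := by
        rw [← Finset.mul_sum]
        congr 1
        refine Finset.sum_bij (fun σ _ => r * σ) (fun σ hσ => (hrT σ).1 hσ)
          (fun σ _ τ _ h => mul_left_cancel h) ?_ (fun σ _ => rfl)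
        intro τ hτ
        refine ⟨r⁻¹ * τ, ?_, by group⟩
        rw [hrT]
        simpa using hτ

end Helper27.FMEven
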