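import Pool.Agent.Helper27.FMEven.K1

/-! K2: elementary lemmas, and the homomorphism `φ₀` given by roots of unity. -/

namespace Helper27.FMEven

open NumberField Pointwise Pool.Agent.Helper60.FM

/-- elements fixed by `Gal(Qb/K)` are in `K` -/
theorem mem_of_fixed (K : IntermediateField ℚ Qb) (x : Qb)
    (hx : ∀ h ∈ K.fixingSubgroup, h x = x) : x ∈ K := by
  have h1 := InfiniteGalois.fixedField_fixingSubgroup (k := ℚ) (K := Qb) K
  rw [← h1]
  rw [IntermediateField.mem_fixedField_iff]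
  exact hx

theorem fix_of_mem {K : IntermediateField ℚ Qb} {h : GQ} (hh : h ∈ K.fixingSubgroup) (x : K) :
    h (x : Qb) = x := (IntermediateField.mem_fixingSubgroup_iff K h).1 hh _ x.2

theorem fixingSubgroup_normal (K : IntermediateField ℚ Qb) [IsGalois ℚ K] :
    K.fixingSubgroup.Normal := by
  have h1 : @Normal ℚ K _ _ K.algebra' := normal_cast _ _ (inferInstance : Normal ℚ K)
  constructor
  intro n hn g
  rw [IntermediateField.mem_fixingSubgroup_iff]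
  intro x hx
  have h2 : g⁻¹ x ∈ K := by
    have h3 := AlgEquiv.restrictNormal_commutes g⁻¹ K ⟨x, hx⟩
    have h4 : ((g⁻¹.restrictNormal K ⟨x, hx⟩ : K) : Qb) = g⁻¹ x := h3
    rw [← h4]
    exact SetLike.coe_mem _
  have h5 : n (g⁻¹ x) = g⁻¹ x := fix_of_mem hn ⟨_, h2⟩
  rw [AlgEquiv.mul_apply, AlgEquiv.mul_apply, h5]
  exact AlgEquiv.apply_symm_apply g x

theorem isOpen_fixingSubgroup (K : IntermediateField ℚ Qb) [FiniteDimensional ℚ K] :
    IsOpen (K.fixingSubgroup : Set GQ) := by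
  have h1 : @FiniteDimensional ℚ K _ _ K.algebra'.toModule := by
    have : @Algebra.toModule ℚ K _ _ K.algebra' = @Algebra.toModule ℚ K _ _
      (DivisionRing.toRatAlgebra) := by
      rw [Subsingleton.elim (K.algebra') (DivisionRing.toRatAlgebra)]
    rw [this]
    infer_instance
  exact K.fixingSubgroup_isOpen

theorem zpow_val_inj {F : Type*} [Field F] {p : ℕ} [NeZero p] {ζ : F}
    (hζ : IsPrimitiveRoot ζ p) {a b : ZMod p} (h : ζ ^ a.val = ζ ^ b.val) : a = b :=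
  ZMod.val_injective _ (hζ.pow_inj (ZMod.val_lt a) (ZMod.val_lt b) h)

/-- powers of the exponent of a product in `ZMod p` -/
theorem pow_val_mul {F : Type*} [Field F] {p : ℕ} [NeZero p] (ζ : F) (hζ : ζ ^ p = 1)
    (a : ℕ) (b : ZMod p) : ζ ^ ((a : ZMod p) * b).val = (ζ ^ b.val) ^ a := by
  induction a with
  | zero => simp
  | succ a ih =>
    have : (((a + 1 : ℕ) : ZMod p) * b) = (a : ZMod p) * b + b := by push_cast; ring
    rw [this, pow_val_add ζ hζ, ih, pow_succ]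

/-- the homomorphism given by roots of unity -/
theorem exists_phi0 (p : ℕ) [Fact p.Prime] (K : IntermediateField ℚ Qb)
    [FiniteDimensional ℚ K] [IsGalois ℚ K] (ζ : K) (hζ : IsPrimitiveRoot ζ p) :
    ∃ (φ₀ : GQ → ZMod p) (β₀ : Qb), HomOn K.fixingSubgroup p φ₀ ∧
      (∀ g : GQ, ∀ h ∈ K.fixingSubgroup, φ₀ (g * h * g⁻¹) = φ₀ h) ∧
      β₀ ≠ 0 ∧ (∀ h ∈ K.fixingSubgroup, h β₀ = (ζ : Qb) ^ (φ₀ h).val * β₀) ∧
      ∀ t : Units.torsion K, ∃ a : ℕ, (((t.val : 𝓞 K) : K) : Qb) = (β₀ ^ a) ^ p := by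
  classical
  have hp0 : p ≠ 0 := (Fact.out : p.Prime).ne_zero
  have hζQ : IsPrimitiveRoot (ζ : Qb) p := hζ.map_of_injective (algebraMap K Qb).injective
  have hζp : (ζ : Qb) ^ p = 1 := hζQ.pow_eq_one
  obtain ⟨g, hg⟩ := IsCyclic.exists_generator (α := Units.torsion K)
  let tq : Units.torsion K →* Qb := ((algebraMap K Qb).comp (algebraMap (𝓞 K) K)).toMonoidHom.comp
    ((Units.coeHom (𝓞 K)).comp (Units.torsion K).subtype)
  have htq : ∀ t : Units.torsion K, tq t = (((t.val : 𝓞 K) : K) : Qb) := fun t => rfl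
  set ξ : Qb := (((g.val : 𝓞 K) : K) : Qb) with hξ
  have hξ0 : ξ ≠ 0 := by
    have h1 : ((g.val : 𝓞 K) : K) ≠ 0 := Units.coe_ne_zero g.val
    exact fun h => h1 (Subtype.ext h)
  obtain ⟨w, hw0, hw⟩ : ∃ w : ℕ, 0 < w ∧ ξ ^ w = 1 := by
    refine ⟨Nat.card (Units.torsion K), Nat.card_pos, ?_⟩
    have h1 : g ^ Nat.card (Units.torsion K) = 1 := pow_card_eq_one'
    have h2 := congrArg tq h1
    rw [_root_.map_pow, _root_.map_one, htq] at h2
    exact h2
  obtain ⟨β₀, hβ₀⟩ := IsAlgClosed.exists_pow_nat_eq ξ (Nat.pos_of_ne_zero hp0)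
  have hβ0 : β₀ ≠ 0 := by
    intro h
    rw [h, zero_pow hp0] at hβ₀
    exact hξ0 hβ₀.symm
  have htor : ∀ t : Units.torsion K, ∃ a : ℕ, (((t.val : 𝓞 K) : K) : Qb) = (β₀ ^ a) ^ p := by
    intro t
    obtain ⟨n, hn⟩ := hg t
    have hn2 : t ∈ Submonoid.powers g := by
      rw [mem_powers_iff_mem_zpowers]
      exact ⟨n, hn⟩
    obtain ⟨a, ha⟩ := hn2
    refine ⟨a, ?_⟩
    have h2 := congrArg tq ha
    rw [pow_right_comm, hβ₀, ← htq, ← h2]
    exact (_root_.map_pow tq g a)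
  -- ζ is a power of β₀ ^ p
  obtain ⟨j, hj⟩ : ∃ j : ℕ, (ζ : Qb) = (β₀ ^ j) ^ p := by
    have h1 : IsIntegral ℤ ζ := hζ.isIntegral (Nat.pos_of_ne_zero hp0)
    have h2 : (⟨ζ, h1⟩ : 𝓞 K) ^ p = 1 := by
      apply RingOfIntegers.ext
      exact (_root_.map_pow (algebraMap (𝓞 K) K) _ p).trans
        (hζ.pow_eq_one.trans (_root_.map_one (algebraMap (𝓞 K) K)).symm)
    let u : (𝓞 K)ˣ := Units.ofPowEqOne (⟨ζ, h1⟩ : 𝓞 K) p h2 hp0
    have hu : u ∈ Units.torsion K := by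
      rw [Units.torsion, CommGroup.mem_torsion, isOfFinOrder_iff_pow_eq_one]
      exact ⟨p, Nat.pos_of_ne_zero hp0, Units.pow_ofPowEqOne h2 hp0⟩
    obtain ⟨a, ha⟩ := htor ⟨u, hu⟩
    exact ⟨a, ha⟩
  -- β₀ is a root of unity
  have hfin : ∃ n : ℕ, 0 < n ∧ β₀ ^ n = 1 :=
    ⟨p * w, Nat.mul_pos (Nat.pos_of_ne_zero hp0) hw0, by rw [pow_mul, hβ₀, hw]⟩
  have hprim : IsPrimitiveRoot β₀ (orderOf β₀) := IsPrimitiveRoot.orderOf β₀
  have hord : 0 < orderOf β₀ := by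
    obtain ⟨n, hn, hn2⟩ := hfin
    exact orderOf_pos_iff.2 (isOfFinOrder_iff_pow_eq_one.2 ⟨n, hn, hn2⟩)
  have : NeZero (orderOf β₀) := ⟨hord.ne'⟩
  have hex : ∀ h ∈ K.fixingSubgroup, ∃ a : ZMod p, h β₀ = (ζ : Qb) ^ a.val * β₀ := by
    intro h hh
    have h1 : (h β₀ / β₀) ^ p = 1 := by
      rw [div_pow, ← _root_.map_pow, hβ₀, hξ, fix_of_mem hh, div_self hξ0]
    obtain ⟨i, hi, hi2⟩ := hζQ.eq_pow_of_pow_eq_one h1
    refine ⟨(i : ZMod p), ?_⟩
    rw [ZMod.val_natCast_of_lt hi, hi2, div_mul_cancel₀ _ hβ0]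
  let φ₀ : GQ → ZMod p := fun h =>
    if hh : ∃ a : ZMod p, h β₀ = (ζ : Qb) ^ a.val * β₀ then hh.choose else 0
  have hφ₀ : ∀ h ∈ K.fixingSubgroup, h β₀ = (ζ : Qb) ^ (φ₀ h).val * β₀ := by
    intro h hh
    have h1 := hex h hh
    have h2 : φ₀ h = h1.choose := dif_pos h1
    rw [h2]
    exact h1.choose_spec
  have huniq : ∀ h ∈ K.fixingSubgroup, ∀ a : ZMod p, h β₀ = (ζ : Qb) ^ a.val * β₀ →
      φ₀ h = a := by
    intro h hh a ha
    rw [hφ₀ h hh] at ha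
    exact zpow_val_inj hζQ (mul_right_cancel₀ hβ0 ha)
  refine ⟨φ₀, β₀, ⟨?_, ?_⟩, ?_, hβ0, hφ₀, htor⟩
  · intro g hg h hh
    apply huniq _ (mul_mem hg hh)
    rw [AlgEquiv.mul_apply, hφ₀ h hh, _root_.map_mul, _root_.map_pow, fix_of_mem hg, hφ₀ g hg,
      pow_val_add _ hζp]
    ring
  · obtain ⟨n, hn, hn2⟩ := hfin
    have hint : IsIntegral ℚ β₀ := by
      refine ⟨Polynomial.X ^ n - Polynomial.C 1, Polynomial.monic_X_pow_sub_C 1 hn.ne', ?_⟩
      simp [hn2]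
    have : FiniteDimensional ℚ (IntermediateField.adjoin ℚ {β₀} : IntermediateField ℚ Qb) := by
      have := IntermediateField.adjoin.finiteDimensional hint
      convert this
    refine ⟨(IntermediateField.adjoin ℚ {β₀} : IntermediateField ℚ Qb).fixingSubgroup,
      isOpen_fixingSubgroup _, ?_⟩
    intro u hu hu2
    apply huniq u hu2
    have : u β₀ = β₀ := (IntermediateField.mem_fixingSubgroup_iff _ u).1 hu _
      (IntermediateField.mem_adjoin_simple_self ℚ β₀)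
    rw [this]
    simp
  · intro g h hh
    have hnorm := fixingSubgroup_normal K
    apply huniq _ (hnorm.conj_mem h hh g)
    -- g⁻¹ acts on the powers of β₀
    have h1 : (g⁻¹ β₀) ^ orderOf β₀ = 1 := by
      rw [← _root_.map_pow, pow_orderOf_eq_one, _root_.map_one]
    obtain ⟨k, _, hk⟩ := hprim.eq_pow_of_pow_eq_one h1
    have h2 : g (β₀ ^ k) = β₀ := by
      rw [hk]
      exact AlgEquiv.apply_symm_apply g β₀
    have h3 : g⁻¹ (ζ : Qb) = (ζ : Qb) ^ k := by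
      conv_lhs => rw [hj]
      conv_rhs => rw [hj]
      rw [_root_.map_pow, _root_.map_pow, ← hk]
      ring
    have h4 : g ((ζ : Qb) ^ k) = ζ := by
      rw [← h3]
      exact AlgEquiv.apply_symm_apply g (ζ : Qb)
    rw [AlgEquiv.mul_apply, AlgEquiv.mul_apply, ← hk, _root_.map_pow, hφ₀ h hh, mul_pow,
      _root_.map_mul, h2]
    congr 1
    rw [← pow_mul, mul_comm, pow_mul, _root_.map_pow, h4]

end Helper27.FMEven
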