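import Pool.Agent.Helper27.FMEven.K3b

/-! K3: the key lemma. -/

namespace Helper27.FMEven

open NumberField Pointwise Pool.Agent.Helper60.FM

theorem key (p : ℕ) [Fact p.Prime] (hp : p ≠ 2) (S : Set ℕ) (K : IntermediateField ℚ Qb)
    [FiniteDimensional ℚ K] [IsGalois ℚ K] [IsCMField K] (ζ : K) (hζ : IsPrimitiveRoot ζ p)
    (hi : NoMinusClass p K) (hii : NonSplit S K) (c : GQ) (hc : IsCC c) :
    ∃ φ₀ : GQ → ZMod p, HomOn K.fixingSubgroup p φ₀ ∧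
      (∀ g : GQ, ∀ h ∈ K.fixingSubgroup, φ₀ (g * h * g⁻¹) = φ₀ h) ∧
      ∀ φ : GQ → ZMod p, HomOn K.fixingSubgroup p φ →
        (∀ h ∈ K.fixingSubgroup, φ (c * h * c⁻¹) = φ h) →
        (∃ M : IntermediateField ℚ Qb, FiniteDimensional ℚ M ∧ IsGalois ℚ M ∧
          (∀ l : ℕ, l.Prime → l ∉ S → Unr M l) ∧
          ∀ h ∈ K.fixingSubgroup ⊓ M.fixingSubgroup, φ h = 0) →
        ∃ a : ZMod p, ∀ h ∈ K.fixingSubgroup, φ h = a * φ₀ h := by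
  obtain ⟨φ₀, β₀, h0, h1, h2, h3, h4⟩ := exists_phi0 p K ζ hζ
  refine ⟨φ₀, h0, h1, ?_⟩
  rintro φ hφ hφc ⟨M, hM1, hM2, hM3, hM4⟩
  obtain ⟨β, t, hβ0, hβt, hβ⟩ := exists_root p hp S K ζ hζ hi hii c hc φ hφ hφc M hM3 hM4
  obtain ⟨a, ha⟩ := h4 t
  have hζQ : IsPrimitiveRoot (ζ : Qb) p := hζ.map_of_injective (algebraMap K Qb).injective
  have hζp : (ζ : Qb) ^ p = 1 := hζQ.pow_eq_one
  have h5 : (β / β₀ ^ a) ^ p = 1 := by
    rw [div_pow, hβt, ha, div_self]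
    exact pow_ne_zero _ (pow_ne_zero _ h2)
  obtain ⟨j, _, hj⟩ := hζQ.eq_pow_of_pow_eq_one h5
  have h6 : β = (ζ : Qb) ^ j * β₀ ^ a := by
    rw [hj, div_mul_cancel₀]
    exact pow_ne_zero _ h2
  refine ⟨(a : ZMod p), ?_⟩
  intro h hh
  have h7 : h β = (ζ : Qb) ^ ((a : ZMod p) * φ₀ h).val * β := by
    rw [h6, _root_.map_mul, _root_.map_pow, _root_.map_pow, fix_of_mem hh, h3 h hh,
      pow_val_mul _ hζp]
    ring
  rw [hβ h hh] at h7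
  exact zpow_val_inj hζQ (mul_right_cancel₀ hβ0 h7)

end Helper27.FMEven
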