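import Pool.Agent.Helper27.FMEven.K2
import Pool.Agent.Helper60.FM.ModC1

/-! K3a: preparations for the key lemma. -/

namespace Helper27.FMEven

open NumberField Pointwise Pool.Agent.Helper60.FM

theorem res_coe (K : IntermediateField ℚ Qb) [FiniteDimensional ℚ K] [IsGalois ℚ K] (g : GQ)
    (x : K) : ((res K g x : K) : Qb) = g (x : Qb) :=
  AlgEquiv.restrictNormal_commutes g K x

theorem res_cc (K : IntermediateField ℚ Qb) [FiniteDimensional ℚ K] [IsGalois ℚ K]
    [IsCMField K] {c : GQ} (hc : IsCC c) (x : K) : res K c x = IsCMField.complexConj K x := by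
  obtain ⟨ι, hι⟩ := hc
  let φ : K →+* ℂ := ι.comp (algebraMap K Qb)
  apply φ.injective
  rw [IsCMField.complexEmbedding_complexConj]
  change ι ((res K c x : K) : Qb) = starRingEnd ℂ (ι (x : Qb))
  rw [res_coe, hι]

theorem cc_root {c : GQ} (hc : IsCC c) {z : Qb} {n : ℕ} (hn : n ≠ 0) (hz : z ^ n = 1) :
    c z = z⁻¹ := by
  obtain ⟨ι, hι⟩ := hc
  apply ι.injective
  have h1 : ‖ι z‖ = 1 := by
    apply Complex.norm_eq_one_of_pow_eq_one (n := n) _ hn
    rw [← _root_.map_pow, hz, _root_.map_one]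
  rw [hι, map_inv₀, Complex.inv_eq_conj h1]

theorem exists_int_mul (x : Qb) : ∃ m : ℤ, m ≠ 0 ∧ IsIntegral ℤ ((m : Qb) * x) := by
  have h1 : IsAlgebraic ℚ x := Algebra.IsAlgebraic.isAlgebraic x
  have h2 : IsAlgebraic ℤ x := (IsFractionRing.isAlgebraic_iff ℤ ℚ Qb).2 h1
  obtain ⟨m, hm, h⟩ := h2.exists_integral_multiple
  refine ⟨m, hm, ?_⟩
  simpa [zsmul_eq_mul] using h

end Helper27.FMEven
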