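import Pool.Agent.Helper27.FMEven.K3a

/-! K3b: the Kummer generator can be chosen to be a root of a root of unity. -/

namespace Helper27.FMEven

open NumberField Pointwise Pool.Agent.Helper60.FM IsDedekindDomain

theorem exists_prime_mem {K : Type*} [Field K] [NumberField K] (P : Ideal (𝓞 K)) (hP : P.IsPrime)
    (hP0 : P ≠ ⊥) : ∃ l : ℕ, l.Prime ∧ (l : 𝓞 K) ∈ P := by
  classical
  have h1 : ∃ n : ℕ, n ≠ 0 ∧ (n : 𝓞 K) ∈ P :=
    ⟨Ideal.absNorm P, by simpa [Ideal.absNorm_eq_zero_iff] using hP0, Ideal.absNorm_mem P⟩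
  have h2 := Nat.find_spec h1
  set n := Nat.find h1 with hn
  have hmin : ∀ k, k < n → k ≠ 0 → (k : 𝓞 K) ∉ P := by
    intro k hk hk0 hkP
    exact Nat.find_min h1 hk ⟨hk0, hkP⟩
  refine ⟨n, ?_, h2.2⟩
  have hn1 : n ≠ 1 := by
    intro h
    rw [h] at h2
    apply hP.ne_top
    rw [Ideal.eq_top_iff_one]
    simpa using h2.2
  rw [Nat.prime_def_lt]
  refine ⟨by omega, ?_⟩
  intro m hm hmn
  obtain ⟨k, hk⟩ := hmn
  have hm0 : m ≠ 0 := by
    rintro rfl
    rw [zero_mul] at hk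
    exact h2.1 hk
  have hk0 : k ≠ 0 := by
    rintro rfl
    rw [mul_zero] at hk
    exact h2.1 hk
  have h3 : ((m : 𝓞 K) * (k : 𝓞 K)) ∈ P := by
    have := h2.2
    rw [hk] at this
    simpa using this
  rcases hP.mem_or_mem h3 with h4 | h4
  · exact absurd h4 (hmin m hm hm0)
  · by_contra hm1
    have hkn : k < n := by
      rw [hk]
      have : 2 ≤ m := by omega
      nlinarith [Nat.pos_of_ne_zero hk0]
    exact hmin k hkn hk0 h4

/-- division of an exponent -/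
theorem exp_dvd_of_sq {p : ℕ} (hp : p.Prime) (hp2 : p ≠ 2) {x y : WithZero (Multiplicative ℤ)}
    (hx : x ≠ 0) (hy : y ≠ 0) (h : y ^ p = x * x) :
    ∃ m : ℤ, x = WithZero.exp ((p : ℤ) * m) := by
  have h1 : x = WithZero.exp (WithZero.log x) := (WithZero.exp_log hx).symm
  have h2 : y = WithZero.exp (WithZero.log y) := (WithZero.exp_log hy).symm
  set a := WithZero.log x
  set b := WithZero.log y
  rw [h1, h2, ← WithZero.exp_nsmul, ← WithZero.exp_add] at h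
  have h3 : p • b = a + a := WithZero.exp_injective h
  have h4 : (p : ℤ) ∣ 2 * a := ⟨b, by rw [two_mul, ← h3]; simp⟩
  have h5 : IsCoprime (p : ℤ) 2 := by
    have := (Nat.coprime_primes hp Nat.prime_two).2 hp2
    exact_mod_cast Nat.isCoprime_iff_coprime.2 this
  obtain ⟨m, hm⟩ := h5.dvd_of_dvd_mul_left h4
  exact ⟨m, by rw [h1, hm]⟩

theorem exists_root (p : ℕ) [Fact p.Prime] (hp : p ≠ 2) (S : Set ℕ) (K : IntermediateField ℚ Qb)
    [FiniteDimensional ℚ K] [IsGalois ℚ K] [IsCMField K] (ζ : K) (hζ : IsPrimitiveRoot ζ p)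
    (hi : NoMinusClass p K) (hii : NonSplit S K) (c : GQ) (hc : IsCC c)
    (φ : GQ → ZMod p) (hφ : HomOn K.fixingSubgroup p φ)
    (hφc : ∀ h ∈ K.fixingSubgroup, φ (c * h * c⁻¹) = φ h)
    (M : IntermediateField ℚ Qb) [FiniteDimensional ℚ M] [IsGalois ℚ M]
    (hM : ∀ l : ℕ, l.Prime → l ∉ S → Unr M l)
    (hMφ : ∀ h ∈ K.fixingSubgroup ⊓ M.fixingSubgroup, φ h = 0) :
    ∃ (β : Qb) (t : Units.torsion K), β ≠ 0 ∧ β ^ p = (((t.val : 𝓞 K) : K) : Qb) ∧
      ∀ h ∈ K.fixingSubgroup, h β = (ζ : Qb) ^ (φ h).val * β := by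
  have hp' : p.Prime := Fact.out
  have hp0 : p ≠ 0 := hp'.ne_zero
  have hζQ : IsPrimitiveRoot (ζ : Qb) p := hζ.map_of_injective (algebraMap K Qb).injective
  have hζp : (ζ : Qb) ^ p = 1 := hζQ.pow_eq_one
  have hnorm := fixingSubgroup_normal K
  obtain ⟨β', hβ'0, hβ'⟩ := exists_kummer p K ζ hζ φ hφ
  obtain ⟨m, hm0, hmint⟩ := exists_int_mul β'
  set β : Qb := (m : Qb) * β' with hβdef
  have hβ0 : β ≠ 0 := mul_ne_zero (by exact_mod_cast hm0) hβ'0
  have hβ : ∀ h ∈ K.fixingSubgroup, h β = (ζ : Qb) ^ (φ h).val * β := by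
    intro h hh
    rw [hβdef, _root_.map_mul, hβ' h hh, map_intCast]
    ring
  -- products `x * c x`
  have hcc : ∀ x : Qb, (∀ h ∈ K.fixingSubgroup, h x = (ζ : Qb) ^ (φ h).val * x) →
      x * c x ∈ K := by
    intro x hx
    apply mem_of_fixed
    intro h hh
    have h1 : c⁻¹ * h * c ∈ K.fixingSubgroup := by
      simpa using hnorm.conj_mem h hh c⁻¹
    have h2 : φ (c⁻¹ * h * c) = φ h := by
      rw [← hφc _ h1]
      congr 1
      group
    have h3 : h (c x) = c ((c⁻¹ * h * c) x) := by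
      rw [← AlgEquiv.mul_apply, ← AlgEquiv.mul_apply]
      congr 1
      group
    rw [_root_.map_mul, h3, hx _ h1, hx _ hh, h2, _root_.map_mul, _root_.map_pow,
      cc_root hc hp0 hζp]
    have h4 : (ζ : Qb) ^ (φ h).val ≠ 0 := pow_ne_zero _ (hζQ.ne_zero hp0)
    rw [inv_pow]
    field_simp
  have hα : β ^ p ∈ K := by
    apply mem_of_fixed
    intro h hh
    rw [_root_.map_pow, hβ h hh, mul_pow, ← pow_mul, mul_comm _ p, pow_mul, hζp, one_pow, one_mul]
  have hinj : Function.Injective (algebraMap K Qb) := (algebraMap K Qb).injective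
  have hcβint : IsIntegral ℤ (c β) := by
    have := hmint.map (c.toRingEquiv.toRingHom.toIntAlgHom)
    exact this
  set αK : K := ⟨β ^ p, hα⟩ with hαK
  have hαint : IsIntegral ℤ αK := by
    rw [← isIntegral_algebraMap_iff hinj]
    exact hmint.pow p
  set α : 𝓞 K := ⟨αK, hαint⟩ with hαdef
  have hαK0 : αK ≠ 0 := by
    intro h
    have := congrArg (algebraMap K Qb) h
    rw [_root_.map_zero] at this
    exact pow_ne_zero p hβ0 this
  have hα0 : α ≠ 0 := by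
    intro h
    apply hαK0
    exact congrArg (algebraMap (𝓞 K) K) h
  set cK : Gal(K/ℚ) := res K c with hcK
  have hcKc := res_cc K hc
  set δK : K := ⟨β * c β, hcc β hβ⟩ with hδK
  have hδint : IsIntegral ℤ δK := by
    rw [← isIntegral_algebraMap_iff hinj]
    exact hmint.mul hcβint
  have hδp : δK ^ p = αK * cK αK := by
    apply hinj
    rw [_root_.map_pow, _root_.map_mul]
    change (β * c β) ^ p = β ^ p * ((res K c αK : K) : Qb)
    rw [res_coe, mul_pow, ← _root_.map_pow]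
  have hδ0 : δK ≠ 0 := by
    intro h
    rw [h, zero_pow hp0] at hδp
    rcases mul_eq_zero.1 hδp.symm with h1 | h1
    · exact hαK0 h1
    · exact hαK0 ((map_eq_zero cK).1 h1)
  -- valuations
  have hval : ∀ v : HeightOneSpectrum (𝓞 K), ∃ k : ℤ,
      v.valuation K (α : K) = WithZero.exp ((p : ℤ) * k) := by
    intro v
    obtain ⟨l, hl, hlv⟩ := exists_prime_mem v.asIdeal v.isPrime v.ne_bot
    by_cases hlS : l ∈ S
    · have hst : cK • v.asIdeal = v.asIdeal := hii cK hcKc v.asIdeal v.isPrime v.ne_bot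
        ⟨l, hlS, hlv⟩
      have h1 := valuation_smul_of_stab cK v hst αK
      refine exp_dvd_of_sq hp' hp (x := v.valuation K (α : K)) (y := v.valuation K δK) ?_ ?_ ?_
      · exact (Valuation.ne_zero_iff _).2 hαK0
      · exact (Valuation.ne_zero_iff _).2 hδ0
      · rw [← _root_.map_pow, hδp, _root_.map_mul, h1]
        rfl
    · refine val_of_unr K M l (hM l hl hlS) αK hαK0 β rfl ?_ v hlv
      intro g hg
      rw [hβ g hg.1, hMφ g hg]
      simp
  obtain ⟨𝔞, h𝔞⟩ := exists_ideal_pow α hα0 hval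
  set δ : 𝓞 K := ⟨δK, hδint⟩ with hδdef
  have hδpO : δ ^ p = α * cK • α := by
    apply RingOfIntegers.ext
    exact hδp
  have h𝔞c : 𝔞 * cK • 𝔞 = Ideal.span {δ} := by
    rw [← pow_left_inj hp0, mul_pow, ← smul_pow', h𝔞, Ideal.span_singleton_pow, hδpO,
      ← Ideal.span_singleton_mul_span_singleton]
    congr 1
    rw [Ideal.pointwise_smul_def, Ideal.map_span, Set.image_singleton]
    rfl
  have hprin : 𝔞.IsPrincipal := by
    refine hi cK hcKc 𝔞 ?_ ?_
    · rw [h𝔞]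
      exact ⟨α, rfl⟩
    · rw [h𝔞c]
      exact ⟨δ, rfl⟩
  obtain ⟨η, hη⟩ := hprin
  have hη' : 𝔞 = Ideal.span {η} := hη
  have hass : Associated (η ^ p) α := by
    rw [← Ideal.span_singleton_eq_span_singleton, ← Ideal.span_singleton_pow, ← hη', h𝔞]
  obtain ⟨u, hu⟩ := hass
  have hη0 : η ≠ 0 := by
    rintro rfl
    rw [zero_pow hp0, zero_mul] at hu
    exact hα0 hu.symm
  -- passage to Qb
  let toQ : 𝓞 K →+* Qb := (algebraMap K Qb).comp (algebraMap (𝓞 K) K)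
  have htoQ : Function.Injective toQ := hinj.comp RingOfIntegers.coe_injective
  have hηQ : toQ η ≠ 0 := fun h => hη0 (htoQ (by rw [h, _root_.map_zero]))
  have huQ : toQ u ≠ 0 := fun h => u.ne_zero (htoQ (by rw [h, _root_.map_zero]))
  have hfix : ∀ x : 𝓞 K, ∀ h ∈ K.fixingSubgroup, h (toQ x) = toQ x := by
    intro x h hh
    exact fix_of_mem hh (x : K)
  have hβα : β ^ p = toQ α := rfl
  set β₁ : Qb := β / toQ η with hβ₁
  have hβ₁p : β₁ ^ p = toQ u := by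
    rw [hβ₁, div_pow, hβα, ← hu, _root_.map_mul, _root_.map_pow]
    field_simp
  have hβ₁0 : β₁ ≠ 0 := div_ne_zero hβ0 hηQ
  have hβ₁h : ∀ h ∈ K.fixingSubgroup, h β₁ = (ζ : Qb) ^ (φ h).val * β₁ := by
    intro h hh
    rw [hβ₁, map_div₀, hβ h hh, hfix η h hh, mul_div_assoc]
  set δ₁ : Qb := β₁ * c β₁ with hδ₁
  have hδ₁K : δ₁ ∈ K := hcc β₁ hβ₁h
  have hδ₁0 : δ₁ ≠ 0 := mul_ne_zero hβ₁0 ((map_ne_zero c).2 hβ₁0)
  have hδ₁p : δ₁ ^ p = toQ u * c (toQ u) := by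
    rw [hδ₁, mul_pow, ← _root_.map_pow, hβ₁p]
  obtain ⟨t, ht0⟩ : ∃ t : Units.torsion K, t = IsCMField.unitsMulComplexConjInv K u := ⟨_, rfl⟩
  have ht : toQ (t.val : (𝓞 K)ˣ) * c (toQ u) = toQ u := by
    have h1 : (t.val : (𝓞 K)ˣ) * IsCMField.unitsComplexConj K u = u := by
      rw [ht0]
      change u * (IsCMField.unitsComplexConj K u)⁻¹ * IsCMField.unitsComplexConj K u = u
      group
    have h2 : toQ ((IsCMField.unitsComplexConj K u : (𝓞 K)ˣ) : 𝓞 K) = c (toQ u) := by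
      change (((IsCMField.complexConj K ((u : 𝓞 K) : K)) : K) : Qb) = c (toQ u)
      rw [← hcKc, res_coe]
      rfl
    have h3 := congrArg (fun z : (𝓞 K)ˣ => toQ (z : 𝓞 K)) h1
    simp only [Units.val_mul, _root_.map_mul] at h3
    rw [h2] at h3
    exact h3
  have hu2 : toQ u ^ 2 = toQ (t.val : (𝓞 K)ˣ) * δ₁ ^ p := by
    rw [hδ₁p]
    calc toQ u ^ 2 = toQ u * (toQ (t.val : (𝓞 K)ˣ) * c (toQ u)) := by rw [ht, sq]
      _ = _ := by ring
  obtain ⟨q, hq⟩ : ∃ q : ℕ, p + 1 = 2 * q := by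
    rcases hp'.eq_two_or_odd' with h | h
    · exact absurd h hp
    · obtain ⟨k, hk⟩ := h
      exact ⟨k + 1, by omega⟩
  refine ⟨β₁ * toQ u / δ₁ ^ q, t ^ q, ?_, ?_, ?_⟩
  · exact div_ne_zero (mul_ne_zero hβ₁0 huQ) (pow_ne_zero _ hδ₁0)
  · have h1 : ((((t ^ q).val : 𝓞 K) : K) : Qb) = toQ (t.val : (𝓞 K)ˣ) ^ q := by
      have h0 : (((t ^ q).val : (𝓞 K)ˣ) : 𝓞 K) = ((t.val : (𝓞 K)ˣ) : 𝓞 K) ^ q := by
        rw [← Units.val_pow_eq_pow_val]
        rfl
      change toQ (((t ^ q).val : (𝓞 K)ˣ) : 𝓞 K) = _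
      rw [h0, _root_.map_pow]
    rw [h1, div_pow, mul_pow, hβ₁p, ← pow_mul, mul_comm q p, pow_mul, ← pow_succ', hq, pow_mul,
      hu2, mul_pow]
    have h2 : (δ₁ ^ p) ^ q ≠ 0 := pow_ne_zero _ (pow_ne_zero _ hδ₁0)
    field_simp
  · intro h hh
    have h1 : h δ₁ = δ₁ := fix_of_mem hh ⟨δ₁, hδ₁K⟩
    rw [map_div₀, _root_.map_mul, _root_.map_pow, h1, hβ₁h h hh, hfix _ h hh]
    ring

end Helper27.FMEven
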