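import Pool.Agent.Helper27.FMEven.T2
import Pool.Agent.Helper27.FMEven.K3

/-! Theorem G. -/

namespace Helper27.FMEven

open NumberField Pointwise Pool.Agent.Helper60.FM

theorem fd_cast {X : Type*} [Field X] (a b : Algebra ℚ X)
    (h : @FiniteDimensional ℚ X _ _ a.toModule) : @FiniteDimensional ℚ X _ _ b.toModule := by
  rw [Subsingleton.elim b a]
  exact h

/-- complex conjugations exist -/
theorem exists_cc : ∃ c : GQ, IsCC c := by
  let ι : Qb →+* ℂ := (IsAlgClosed.lift : Qb →ₐ[ℚ] ℂ).toRingHom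
  let _ : Algebra Qb ℂ := ι.toAlgebra
  have : IsScalarTower ℚ Qb ℂ := IsScalarTower.rat
  let χ : ℂ ≃ₐ[ℚ] ℂ := Complex.conjAe.restrictScalars ℚ
  refine ⟨χ.restrictNormal Qb, ι, ?_⟩
  intro x
  exact AlgEquiv.restrictNormal_commutes χ Qb x

theorem cc_sq {c : GQ} (hc : IsCC c) : c * c = 1 := by
  obtain ⟨ι, hι⟩ := hc
  ext x
  apply ι.injective
  rw [AlgEquiv.mul_apply, hι, hι, Complex.conj_conj]
  rfl

/-- a 2 by 2 matrix of square 1 and determinant 1 is scalar -/
theorem isScal_of_sq {E : Type*} [Field E] [CharZero E] (a : GL (Fin 2) E) (h : a * a = 1)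
    (hd : a.val.det = 1) : IsScal a := by
  have h1 : a.val * a.val = 1 := by
    rw [← Units.val_mul, h, Units.val_one]
  have h2 := Matrix.det_fin_two a.val
  rw [hd] at h2
  have e00 := congrFun (congrFun h1 0) 0
  have e01 := congrFun (congrFun h1 0) 1
  have e10 := congrFun (congrFun h1 1) 0
  have e11 := congrFun (congrFun h1 1) 1
  rw [Matrix.mul_apply, Fin.sum_univ_two] at e00 e01 e10 e11
  simp only [Matrix.one_apply_eq, ne_eq, zero_ne_one, not_false_eq_true, Matrix.one_apply_ne,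
    one_ne_zero] at e00 e01 e10 e11
  set x := a.val 0 0
  set y := a.val 0 1
  set z := a.val 1 0
  set w := a.val 1 1
  have ht : x + w ≠ 0 := by
    intro h0
    have hw : w = -x := by linear_combination h0
    rw [hw] at h2
    have : (2 : E) = 0 := by linear_combination h2 - e00
    exact two_ne_zero this
  have hy : y = 0 := by
    have : (x + w) * y = 0 := by linear_combination e01
    exact (mul_eq_zero.1 this).resolve_left ht
  have hz : z = 0 := by
    have : (x + w) * z = 0 := by linear_combination e10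
    exact (mul_eq_zero.1 this).resolve_left ht
  have hxw : x = w := by
    have h3 : (x - w) * (x + w) = 0 := by
      rw [hy, hz] at e00 e11
      linear_combination e00 - e11
    have := (mul_eq_zero.1 h3).resolve_right ht
    linear_combination this
  refine ⟨x, ?_⟩
  ext i j
  fin_cases i <;> fin_cases j
  · simp [x]
  · simpa [y] using hy
  · simpa [z] using hz
  · simpa [x, w] using hxw.symm

theorem isScal_one {E : Type*} [Field E] : IsScal (1 : GL (Fin 2) E) :=
  ⟨1, by simp⟩

/-- the field `M` attached to a homomorphism that kills the kernel of `V` -/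
theorem exists_M {M' : Type*} [Group M'] (V : GQ →* M') (_hV : IsClosed (V.ker : Set GQ))
    (p : ℕ) (K : IntermediateField ℚ Qb)
    [FiniteDimensional ℚ K] [IsGalois ℚ K] (φ : GQ → ZMod p)
    (hφ : HomOn K.fixingSubgroup p φ) (hφV : ∀ h ∈ K.fixingSubgroup, V h = 1 → φ h = 0) :
    ∃ M : IntermediateField ℚ Qb, FiniteDimensional ℚ M ∧ IsGalois ℚ M ∧
      V.ker ≤ M.fixingSubgroup ∧ ∀ h ∈ K.fixingSubgroup ⊓ M.fixingSubgroup, φ h = 0 := by
  -- the open subgroup `W`
  obtain ⟨U, hU1, hU2⟩ := hφ.cont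
  obtain ⟨N, hN1, hN2, hKN, hNU⟩ := exists_galois_le K U hU1
  have hNn := fixingSubgroup_normal N
  have hNo := isOpen_fixingSubgroup N
  set U' : Subgroup GQ := N.fixingSubgroup ⊔ V.ker with hU'
  have hU'o : IsOpen (U' : Set GQ) :=
    Subgroup.isOpen_mono (H₁ := N.fixingSubgroup) le_sup_left hNo
  have hU'c : IsClosed (U' : Set GQ) := Subgroup.isClosed_of_isOpen _ hU'o
  have hU'n : U'.Normal := Subgroup.sup_normal _ _
  let M : IntermediateField ℚ Qb := IntermediateField.fixedField U'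
  have hMfix : M.fixingSubgroup = U' :=
    InfiniteGalois.fixingSubgroup_fixedField (k := ℚ) (K := Qb) ⟨U', hU'c⟩
  have hMfd : FiniteDimensional ℚ M := by
    have h1 : @FiniteDimensional ℚ M _ _ M.algebra'.toModule := by
      rw [← InfiniteGalois.isOpen_iff_finite]
      change IsOpen (M.fixingSubgroup : Set GQ)
      rw [hMfix]
      exact hU'o
    exact fd_cast _ _ h1
  have hMg : IsGalois ℚ M := by
    have h1 : @IsGalois ℚ _ M _ M.algebra' := by
      rw [← InfiniteGalois.normal_iff_isGalois, hMfix]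
      exact hU'n
    exact galois_cast _ _ h1
  refine ⟨M, hMfd, hMg, ?_, ?_⟩
  · rw [hMfix]
    exact le_sup_right
  · rintro h ⟨hh1, hh2⟩
    have hh2' : h ∈ U' := by rw [← hMfix]; exact hh2
    rw [hU', Subgroup.mem_sup_of_normal_left] at hh2'
    obtain ⟨n, hn, v, hv, rfl⟩ := hh2'
    have hnK : n ∈ K.fixingSubgroup := IntermediateField.fixingSubgroup_le hKN hn
    have hvK : v ∈ K.fixingSubgroup := (K.fixingSubgroup.mul_mem_cancel_left hnK).1 hh1
    rw [hφ.add n hnK v hvK, hU2 n (hNU hn) hnK, hφV v hvK hv, add_zero]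

theorem theoremG (p : ℕ) [Fact p.Prime] (hp : p ≠ 2) {E : Type*}
    [NormedField E] [IsUltrametricDist E] [NormedAlgebra ℚ_[p] E]
    (V : GQ →* GL (Fin 2) E) (hV : Continuous V)
    (heven : ∀ c : GQ, IsCC c → (V c).val.det = 1)
    (S : Set ℕ) (hS : ∀ l : ℕ, l.Prime → l ∉ S → UnramAt V l)
    (K : IntermediateField ℚ Qb) [FiniteDimensional ℚ K] [IsGalois ℚ K] [IsCMField K]
    (ζ : K) (hζ : IsPrimitiveRoot ζ p)
    (hK : ∀ g ∈ K.fixingSubgroup, ‖(V g).val.trace ^ 2 - 4 * (V g).val.det‖ < 1)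
    (hi : NoMinusClass p K) (hii : NonSplit S K) :
    (∃ v : Fin 2 → E, v ≠ 0 ∧ ∀ g : GQ, ∃ a : E, (V g).val.mulVec v = a • v) ∨
    (∀ g h : GQ, V g * V h = V h * V g) ∨
    (∃ U : Subgroup GQ, IsOpen (U : Set GQ) ∧ ∀ g ∈ U, IsScal (V g)) := by
  have : CharZero E := by
    let _ : Algebra ℚ_[p] E := NormedAlgebra.toAlgebra
    exact charZero_of_injective_algebraMap (algebraMap ℚ_[p] E).injective
  obtain ⟨c, hc⟩ := exists_cc
  obtain ⟨φ₀, h0, h1, h2⟩ := key p hp S K ζ hζ hi hii c hc
  have hnorm := fixingSubgroup_normal K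
  have hVc : IsScal (V c) := by
    apply isScal_of_sq _ _ (heven c hc)
    rw [← _root_.map_mul, cc_sq hc, _root_.map_one]
  have hclosed : IsClosed (V.ker : Set GQ) := by
    have : (V.ker : Set GQ) = V ⁻¹' {1} := by
      ext x
      simp [MonoidHom.mem_ker]
    rw [this]
    exact isClosed_singleton.preimage hV
  refine group_part p hp V hV K.fixingSubgroup hnorm (isOpen_fixingSubgroup K) hK φ₀ h0 h1 ?_
  intro φ hφ hφs
  refine h2 φ hφ ?_ ?_
  · intro h hh
    have hk : c * h * c⁻¹ * h⁻¹ ∈ K.fixingSubgroup :=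
      mul_mem (hnorm.conj_mem h hh c) (inv_mem hh)
    have hone : V (c * h * c⁻¹ * h⁻¹) = 1 := by
      obtain ⟨t, ht⟩ := hVc
      have hcomm : V c * V h = V h * V c := by
        apply Units.ext
        rw [Units.val_mul, Units.val_mul, ht]
        exact Matrix.scalar_commute t (fun r => mul_comm _ _) _
      rw [_root_.map_mul, _root_.map_mul, _root_.map_mul, hcomm, _root_.map_inv,
        _root_.map_inv, mul_inv_cancel_right, mul_inv_cancel]
    have h3 := hφs _ hk (by rw [hone]; exact isScal_one)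
    have h4 : c * h * c⁻¹ = (c * h * c⁻¹ * h⁻¹) * h := by group
    rw [h4, hφ.add _ hk _ hh, h3, zero_add]
  · obtain ⟨M, hM1, hM2, hM3, hM4⟩ := exists_M V hclosed p K φ hφ (by
      intro h hh h1
      apply hφs h hh
      rw [h1]
      exact isScal_one)
    exact ⟨M, hM1, hM2, fun l hl hlS => hS l hl hlS M hM1 hM2 hM3, hM4⟩

end Helper27.FMEven
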