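import Pool.Agent.Helper27.FMEven.MainG

/-!
The notions used in the statement on even representations, in a form that prints briefly.
-/

namespace Helper27.FMEven

open NumberField Pointwise Pool.Agent.Helper60.FM

/-- No ideal class of the CM field `F` other than 1 is killed by `p` and by `1 + c`, where `c` is
the complex conjugation: if `I ^ p` and `I * c(I)` are principal then so is `I`. -/
def MinusClassFree (p : ℕ) (F : Type) [Field F] [NumberField F] [IsCMField F] : Prop :=
  ∀ I : Ideal (𝓞 F), (I ^ p).IsPrincipal →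
    (I * I.map (IsCMField.ringOfIntegersComplexConj F)).IsPrincipal → I.IsPrincipal

/-- Complex conjugation maps every prime ideal of `F` above a number in `S` to itself. -/
def ConjStable (S : Set ℕ) (F : Type) [Field F] [NumberField F] [IsCMField F] : Prop :=
  ∀ l ∈ S, ∀ P : Ideal (𝓞 F), P.IsPrime → (l : 𝓞 F) ∈ P →
    P.map (IsCMField.ringOfIntegersComplexConj F) = P

/-- `F` is a CM number field, Galois over the rationals, containing a primitive `p`-th root of
unity, for which `MinusClassFree` and `ConjStable` hold. -/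
def Admissible (p : ℕ) (S : Set ℕ) (F : Type) [Field F] : Prop :=
  ∃ (_ : NumberField F) (_ : IsGalois ℚ F) (_ : IsCMField F), (∃ ζ : F, IsPrimitiveRoot ζ p) ∧
    MinusClassFree p F ∧ ConjStable S F

/-- All inertia groups in the group of automorphisms of the field `F` at the prime ideals of the
ring of integers that contain `l` are trivial. -/
def TrivialInertia (F : Type) [Field F] (l : ℕ) : Prop :=
  ∀ P : Ideal (𝓞 F), P.IsPrime → (l : 𝓞 F) ∈ P → ∀ σ : F ≃+* F,
    (∀ x : 𝓞 F, RingOfIntegers.mapRingEquiv σ x - x ∈ P) → σ = 1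

/-- `V` is unramified outside `S`: every finite Galois extension `M` of the rationals contained
in the field cut out by `V` has trivial inertia groups at the prime numbers outside `S`. -/
def UnramOutside {H : Type*} [Group H] (V : GQ →* H) (S : Set ℕ) : Prop :=
  ∀ M : IntermediateField ℚ Qb, FiniteDimensional ℚ M → IsGalois ℚ M →
    V.ker ≤ M.fixingSubgroup → ∀ l : ℕ, l.Prime → l ∉ S → TrivialInertia M l

/-- The representation is even: complex conjugations have determinant 1. -/
def EvenRep {E : Type*} [Field E] (V : GQ →* GL (Fin 2) E) : Prop :=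
  ∀ c : GQ, IsCC c → (V c).val.det = 1

/-- `|tr² - 4 det| < 1` for the matrices in the set `T`. -/
def DiscSmall {E : Type*} [NormedField E] (T : Set (Matrix (Fin 2) (Fin 2) E)) : Prop :=
  ∀ a ∈ T, ‖a.trace ^ 2 - 4 * a.det‖ < 1

/-- A line of `E²` is stable under all the matrices in `T`. -/
def StableLine {E : Type*} [Field E] (T : Set (Matrix (Fin 2) (Fin 2) E)) : Prop :=
  ∃ v : Fin 2 → E, v ≠ 0 ∧ ∀ a ∈ T, ∃ t : E, a.mulVec v = t • v

/-- The image of `V` is commutative. -/
def CommImage {G H : Type*} [Group G] [Group H] (V : G →* H) : Prop :=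
  ∀ g h : G, V g * V h = V h * V g

/-- `V` is scalar on an open subgroup. -/
def ScalarOnOpen {E : Type*} [Field E] (V : GQ →* GL (Fin 2) E) : Prop :=
  ∃ U : Subgroup GQ, IsOpen (U : Set GQ) ∧ ∀ g ∈ U, IsScal (V g)

/-- The matrices of `V` on a subset of the group. -/
def mats {E : Type*} [Field E] (V : GQ →* GL (Fin 2) E) (H : Set GQ) :
    Set (Matrix (Fin 2) (Fin 2) E) :=
  {a | ∃ g ∈ H, (V g).val = a}

theorem map_conj_eq {K : IntermediateField ℚ Qb} [FiniteDimensional ℚ K] [IsCMField K]
    {c : Gal(K/ℚ)} (hc : ∀ x : K, c x = IsCMField.complexConj K x) (I : Ideal (𝓞 K)) :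
    c • I = I.map (IsCMField.ringOfIntegersComplexConj K) := by
  have h : ∀ x : 𝓞 K, c • x = IsCMField.ringOfIntegersComplexConj K x := by
    intro x
    apply RingOfIntegers.ext
    exact hc (x : K)
  rw [Ideal.pointwise_smul_def]
  apply le_antisymm
  · rw [Ideal.map_le_iff_le_comap]
    intro x hx
    rw [Ideal.mem_comap]
    have : MulSemiringAction.toRingHom Gal(K/ℚ) (𝓞 K) c x =
      IsCMField.ringOfIntegersComplexConj K x := h x
    rw [this]
    exact Ideal.mem_map_of_mem _ hx
  · rw [Ideal.map_le_iff_le_comap]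
    intro x hx
    rw [Ideal.mem_comap]
    have : IsCMField.ringOfIntegersComplexConj K x =
      MulSemiringAction.toRingHom Gal(K/ℚ) (𝓞 K) c x := (h x).symm
    rw [this]
    exact Ideal.mem_map_of_mem _ hx

theorem unr_of_trivialInertia {M : IntermediateField ℚ Qb} {l : ℕ} (h : TrivialInertia M l) :
    Unr M l := by
  intro P hP hl σ hσ
  have h1 := h P hP hl σ.toRingEquiv (fun x => hσ x)
  ext x
  have h2 := congrArg (fun τ : M ≃+* M => ((τ x : M) : Qb)) h1
  exact h2

theorem main_stmt (p : ℕ) [Fact p.Prime] (hp : p ≠ 2) {E : Type*}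
    [NormedField E] [IsUltrametricDist E] [NormedAlgebra ℚ_[p] E]
    (V : GQ →* GL (Fin 2) E) (hV : Continuous V) (heven : EvenRep V)
    (S : Set ℕ) (hS : UnramOutside V S)
    (K : IntermediateField ℚ Qb) (hK : Admissible p S K)
    (hres : DiscSmall (mats V K.fixingSubgroup)) :
    StableLine (mats V Set.univ) ∨ CommImage V ∨ ScalarOnOpen V := by
  obtain ⟨h1, h2, h3, ⟨ζ, hζ⟩, h5, h6⟩ := hK
  have h7 : FiniteDimensional ℚ K := inferInstance
  rcases theoremG p hp V hV heven S
    (fun l hl hlS M hM1 hM2 hM3 => unr_of_trivialInertia (hS M hM1 hM2 hM3 l hl hlS)) K ζ hζ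
    (fun g hg => hres _ ⟨g, hg, rfl⟩)
    (by
      intro c hc I hI1 hI2
      rw [map_conj_eq hc] at hI2
      exact h5 I hI1 hI2)
    (by
      rintro c hc P hP1 _ ⟨l, hl, hlP⟩
      rw [map_conj_eq hc]
      exact h6 l hl P hP1 hlP) with h | h | h
  · left
    obtain ⟨v, hv, h⟩ := h
    refine ⟨v, hv, ?_⟩
    rintro _ ⟨g, _, rfl⟩
    exact h g
  · exact Or.inr (Or.inl h)
  · exact Or.inr (Or.inr h)

end Helper27.FMEven
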