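import Pool.Agent.Helper27.FMEven.Defs

/-! T1: an element of `GL₂(E)` whose discriminant is topologically nilpotent is
topologically of p-power order modulo scalars. -/

namespace Helper27.FMEven

/-- powers of `u + v ν`, `ν² = ε` -/
theorem pow_form {E : Type*} [NormedField E] [IsUltrametricDist E]
    (ν : Matrix (Fin 2) (Fin 2) E) (ε : E) (hν : ν * ν = ε • 1) (hε : ‖ε‖ ≤ 1)
    (u v : E) (hu : ‖u‖ = 1) (hv : ‖v‖ ≤ 1) (m : ℕ) :
    ∃ U V : E, (u • (1 : Matrix (Fin 2) (Fin 2) E) + v • ν) ^ m = U • 1 + V • ν ∧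
      ‖U - u ^ m‖ ≤ ‖ε‖ ∧ ‖u * V - m * u ^ m * v‖ ≤ ‖ε‖ * ‖v‖ := by
  induction m with
  | zero => exact ⟨1, 0, by simp, by simp, by simp; positivity⟩
  | succ m ih =>
    obtain ⟨U, V, h1, h2, h3⟩ := ih
    have hm : ‖(m : E)‖ ≤ 1 := IsUltrametricDist.norm_natCast_le_one E m
    have hV : ‖V‖ ≤ 1 := by
      have : ‖u * V‖ ≤ 1 := by
        have h4 : u * V = (u * V - m * u ^ m * v) + m * u ^ m * v := by ring
        rw [h4]
        refine (IsUltrametricDist.norm_add_le_max _ _).trans (max_le ?_ ?_)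
        · exact h3.trans (mul_le_one₀ hε (norm_nonneg _) hv)
        · rw [norm_mul, norm_mul, norm_pow, hu, one_pow, mul_one]
          exact mul_le_one₀ hm (norm_nonneg _) hv
      rwa [norm_mul, hu, one_mul] at this
    refine ⟨U * u + V * v * ε, U * v + V * u, ?_, ?_, ?_⟩
    · rw [pow_succ, h1]
      have h5 : (U • (1 : Matrix (Fin 2) (Fin 2) E) + V • ν) * (u • 1 + v • ν)
          = (U * u) • 1 + (U * v) • ν + (V * u) • ν + (V * v) • (ν * ν) := by
        simp only [add_mul, mul_add, smul_mul_assoc, mul_smul_comm, one_mul, mul_one]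
        module
      rw [h5, hν, smul_smul]
      simp only [add_smul]
      abel
    · have h6 : U * u + V * v * ε - u ^ (m + 1) = (U - u ^ m) * u + V * v * ε := by ring
      rw [h6]
      refine (IsUltrametricDist.norm_add_le_max _ _).trans (max_le ?_ ?_)
      · rw [norm_mul, hu, mul_one]; exact h2
      · rw [norm_mul, norm_mul]
        calc ‖V‖ * ‖v‖ * ‖ε‖ ≤ 1 * ‖ε‖ := by
              gcongr
              exact mul_le_one₀ hV (norm_nonneg _) hv
          _ = ‖ε‖ := one_mul _
    · have h7 : u * (U * v + V * u) - ((m + 1 : ℕ) : E) * u ^ (m + 1) * v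
          = u * (u * V - m * u ^ m * v) + u * v * (U - u ^ m) := by
        push_cast
        ring
      rw [h7]
      refine (IsUltrametricDist.norm_add_le_max _ _).trans (max_le ?_ ?_)
      · rw [norm_mul, hu, one_mul]; exact h3
      · rw [norm_mul, norm_mul, hu, one_mul, mul_comm]
        gcongr

theorem conj_pow_tendsto (p : ℕ) [Fact p.Prime] (hp : p ≠ 2) {E : Type*}
    [NormedField E] [IsUltrametricDist E] [NormedAlgebra ℚ_[p] E]
    (a : GL (Fin 2) E) (x : Matrix (Fin 2) (Fin 2) E) (hdet : ‖a.val.det‖ = 1)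
    (htr : ‖a.val.trace ^ 2 - 4 * a.val.det‖ < 1) :
    Filter.Tendsto (fun n : ℕ => (a ^ (p ^ n)).val * x * ((a ^ (p ^ n))⁻¹).val)
      Filter.atTop (nhds x) := by
  have hpp := (Fact.out : p.Prime)
  have hnat : ∀ k : ℕ, ‖(k : E)‖ = ‖(k : ℚ_[p])‖ := by
    intro k
    rw [← norm_algebraMap' E (k : ℚ_[p]), map_natCast]
  have hpE : ‖(p : E)‖ < 1 := by rw [hnat]; exact Padic.norm_p_lt_one
  have h2E : ‖(2 : E)‖ = 1 := by
    have h := hnat 2
    have h' : ‖((2 : ℕ) : ℚ_[p])‖ = 1 := by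
      rw [Padic.norm_natCast_eq_one_iff]
      exact (Nat.coprime_primes hpp Nat.prime_two).2 hp
    rw [h'] at h
    exact_mod_cast h
  have h20 : (2 : E) ≠ 0 := by
    intro h
    rw [h, norm_zero] at h2E
    exact zero_ne_one h2E
  set M := a.val with hM
  set s : E := M.trace / 2 with hs
  set ε : E := (M.trace ^ 2 - 4 * M.det) / 4 with hε
  set ν : Matrix (Fin 2) (Fin 2) E := M - s • 1 with hν
  have h4E : ‖(4 : E)‖ = 1 := by
    have : (4 : E) = 2 * 2 := by norm_num
    rw [this, norm_mul, h2E, one_mul]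
  have h40 : (4 : E) ≠ 0 := by
    have : (4 : E) = 2 * 2 := by norm_num
    rw [this]; exact mul_ne_zero h20 h20
  have hε1 : ‖ε‖ < 1 := by rw [hε, norm_div, h4E, div_one]; exact htr
  have hνν : ν * ν = ε • 1 := by
    ext i j
    rw [hν, hε, hs]
    fin_cases i <;> fin_cases j <;>
      simp [Matrix.mul_apply, Fin.sum_univ_two, Matrix.trace_fin_two, Matrix.det_fin_two] <;>
      field_simp <;> ring
  have hs1 : ‖s‖ = 1 := by
    have h5 : s ^ 2 = M.det + ε := by rw [hs, hε]; field_simp; ring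
    have h6 : ‖s ^ 2‖ = 1 := by
      rw [h5, IsUltrametricDist.norm_add_eq_max_of_norm_ne_norm (by rw [hdet]; exact hε1.ne'), hdet]
      exact max_eq_left hε1.le
    rw [norm_pow] at h6
    exact (pow_eq_one_iff_of_nonneg (norm_nonneg _) two_ne_zero).1 h6
  have hform0 : M = s • 1 + (1 : E) • ν := by rw [hν, one_smul]; abel
  set r : ℝ := max ‖(p : E)‖ ‖ε‖ with hr
  have hr0 : 0 ≤ r := le_max_of_le_left (norm_nonneg _)
  have hr1 : r < 1 := max_lt hpE hε1
  have key : ∀ n : ℕ, ∃ U V : E, M ^ (p ^ n) = U • 1 + V • ν ∧ ‖U‖ = 1 ∧ ‖V‖ ≤ r ^ n := by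
    intro n
    induction n with
    | zero => exact ⟨s, 1, by simpa using hform0, hs1, by simp⟩
    | succ n ih =>
      obtain ⟨U, V, h1, h2, h3⟩ := ih
      have hV1 : ‖V‖ ≤ 1 := h3.trans (pow_le_one₀ hr0 hr1.le)
      obtain ⟨U', V', e1, e2, e3⟩ := pow_form ν ε hνν hε1.le U V h2 hV1 p
      refine ⟨U', V', ?_, ?_, ?_⟩
      · rw [pow_succ, pow_mul, h1, e1]
      · have h8 : ‖U ^ p‖ = 1 := by rw [norm_pow, h2, one_pow]
        have h9 : U' = U ^ p + (U' - U ^ p) := by ring
        have h10 : ‖U' - U ^ p‖ < 1 := e2.trans_lt hε1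
        rw [h9, IsUltrametricDist.norm_add_eq_max_of_norm_ne_norm (by rw [h8]; exact h10.ne'), h8]
        exact max_eq_left h10.le
      · have h11 : ‖U * V'‖ ≤ r * ‖V‖ := by
          have h12 : U * V' = (U * V' - p * U ^ p * V) + p * U ^ p * V := by ring
          rw [h12]
          refine (IsUltrametricDist.norm_add_le_max _ _).trans (max_le ?_ ?_)
          · refine e3.trans ?_
            gcongr
            exact le_max_right _ _
          · rw [norm_mul, norm_mul, norm_pow, h2, one_pow, mul_one]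
            gcongr
            exact le_max_left _ _
        rw [norm_mul, h2, one_mul] at h11
        calc ‖V'‖ ≤ r * ‖V‖ := h11
          _ ≤ r * r ^ n := by gcongr
          _ = r ^ (n + 1) := by ring
  choose U V hUV hU hV using key
  set W : ℕ → E := fun n => V n / U n with hW
  have hU0 : ∀ n, U n ≠ 0 := fun n h => by
    have := hU n
    rw [h, norm_zero] at this
    exact zero_ne_one this
  have hWn : ∀ n, ‖W n‖ ≤ r ^ n := fun n => by
    simp only [hW]
    rw [norm_div, hU, div_one]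
    exact hV n
  have hW0 : Filter.Tendsto W Filter.atTop (nhds 0) := by
    rw [tendsto_zero_iff_norm_tendsto_zero]
    exact squeeze_zero (fun _ => norm_nonneg _) hWn (tendsto_pow_atTop_nhds_zero_of_lt_one hr0 hr1)
  have hWe : ∀ n, (1 : E) - W n ^ 2 * ε ≠ 0 := by
    intro n h
    have h1 : ‖W n ^ 2 * ε‖ < 1 := by
      rw [norm_mul, norm_pow]
      have : ‖W n‖ ≤ 1 := (hWn n).trans (pow_le_one₀ hr0 hr1.le)
      calc ‖W n‖ ^ 2 * ‖ε‖ ≤ 1 * ‖ε‖ := by
            gcongr
            exact pow_le_one₀ (norm_nonneg _) this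
        _ < 1 := by rw [one_mul]; exact hε1
    rw [← sub_eq_zero.1 h, norm_one] at h1
    exact lt_irrefl _ h1
  set f : E → Matrix (Fin 2) (Fin 2) E := fun w =>
    ((1 : E) - w ^ 2 * ε)⁻¹ • ((1 + w • ν) * x * (1 - w • ν)) with hf
  have hfc : ContinuousAt f 0 := by
    have hc1 : ContinuousAt (fun w : E => (1 : E) - w ^ 2 * ε) 0 := by fun_prop
    have hc2 : ContinuousAt (fun w : E => ((1 : E) - w ^ 2 * ε)⁻¹) 0 := hc1.inv₀ (by simp)
    refine ContinuousAt.smul hc2 ?_
    refine Continuous.continuousAt ?_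
    refine Continuous.mul (Continuous.mul ?_ continuous_const) ?_
    · exact continuous_const.add (continuous_id.smul continuous_const)
    · exact continuous_const.sub (continuous_id.smul continuous_const)
  have hf0 : f 0 = x := by simp [hf]
  have hlim : Filter.Tendsto (fun n => f (W n)) Filter.atTop (nhds x) := by
    have := hfc.tendsto.comp hW0
    rw [hf0] at this
    exact this
  refine hlim.congr (fun n => ?_)
  have hval : (a ^ (p ^ n)).val = U n • (1 + W n • ν) := by
    rw [Units.val_pow_eq_pow_val]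
    change M ^ (p ^ n) = _
    rw [hUV n, smul_add, smul_smul]
    congr 2
    simp only [hW]
    field_simp [hU0 n]
  have hinv : ((a ^ (p ^ n))⁻¹).val
      = ((U n)⁻¹ * ((1 : E) - W n ^ 2 * ε)⁻¹) • (1 - W n • ν) := by
    apply Units.inv_eq_of_mul_eq_one_right
    rw [hval]
    have h13 : (1 + W n • ν) * (1 - W n • ν) = ((1 : E) - W n ^ 2 * ε) • 1 := by
      simp only [add_mul, mul_sub, mul_one, one_mul, smul_mul_assoc, mul_smul_comm, hνν]
      module
    rw [smul_mul_assoc, mul_smul_comm, h13, smul_smul, smul_smul]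
    have : U n * ((U n)⁻¹ * (1 - W n ^ 2 * ε)⁻¹) * (1 - W n ^ 2 * ε) = 1 := by
      rw [← mul_assoc, mul_inv_cancel₀ (hU0 n), one_mul, inv_mul_cancel₀ (hWe n)]
    rw [this, one_smul]
  rw [hval, hinv]
  simp only [hf, smul_mul_assoc, mul_smul_comm, smul_smul]
  congr 1
  field_simp [hU0 n]

end Helper27.FMEven
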