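import Pool.Agent.Helper27.FMEven.T1

/-! T2: the group theoretic part of theorem G. -/

namespace Helper27.FMEven


theorem exists_hom_of_pgroup {Q : Type*} [Group Q] [Finite Q] {p : ℕ} [Fact p.Prime]
    (hQ : IsPGroup p Q) (Z : Subgroup Q) (hZ : Z ≠ ⊤) :
    ∃ ψ : Q →* Multiplicative (ZMod p), (∀ z ∈ Z, ψ z = 1) ∧ ∃ q, ψ q ≠ 1 := by
  have hnil : Group.IsNilpotent Q := hQ.isNilpotent
  obtain ⟨W, hW, hZW⟩ := (eq_top_or_exists_le_coatom Z).resolve_left hZ
  have hWn : W.Normal := Group.isNilpotent_of_finite_tfae.out 0 2 rfl rfl |>.mp hnil W hW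
  have hQW : IsPGroup p (Q ⧸ W) := hQ.to_quotient W
  have hnt : Nontrivial (Q ⧸ W) := by
    by_contra h
    rw [not_nontrivial_iff_subsingleton] at h
    exact hW.1 (QuotientGroup.subsingleton_iff.mp h)
  have hdvd : p ∣ Nat.card (Q ⧸ W) := by
    obtain ⟨n, hn⟩ := hQW.exists_card_eq
    rcases Nat.eq_zero_or_pos n with h0 | h0
    · rw [h0, pow_zero] at hn
      have := Finite.one_lt_card (α := Q ⧸ W)
      omega
    · rw [hn]
      exact dvd_pow_self p h0.ne'
  obtain ⟨y, hy⟩ := exists_prime_orderOf_dvd_card' p hdvd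
  have hcard : Nat.card (Q ⧸ W) = p := by
    have h1 : (Subgroup.zpowers y).comap (QuotientGroup.mk' W) = ⊤ := by
      apply hW.2
      refine lt_of_le_of_ne ?_ ?_
      · intro w hw
        rw [Subgroup.mem_comap]
        have : (QuotientGroup.mk' W) w = 1 := by
          simpa using hw
        rw [this]
        exact one_mem _
      · intro h
        obtain ⟨q, rfl⟩ := QuotientGroup.mk_surjective y
        have hq : q ∈ (Subgroup.zpowers (q : Q ⧸ W)).comap (QuotientGroup.mk' W) := by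
          rw [Subgroup.mem_comap]
          exact Subgroup.mem_zpowers _
        rw [← h] at hq
        have h3 : (q : Q ⧸ W) = 1 := by simpa using hq
        rw [h3, orderOf_one] at hy
        exact (Fact.out : p.Prime).one_lt.ne hy
    have h2 : Subgroup.zpowers y = ⊤ := by
      rw [eq_top_iff]
      intro z _
      obtain ⟨q, rfl⟩ := QuotientGroup.mk_surjective z
      have : q ∈ (Subgroup.zpowers y).comap (QuotientGroup.mk' W) := by rw [h1]; trivial
      exact this
    rw [← hy, ← Nat.card_zpowers, h2]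
    exact (Nat.card_congr (Subgroup.topEquiv (G := Q ⧸ W)).toEquiv).symm
  have hcard2 : Nat.card (Multiplicative (ZMod p)) = p := by simp
  let e := mulEquivOfPrimeCardEq hcard hcard2
  refine ⟨e.toMonoidHom.comp (QuotientGroup.mk' W), ?_, ?_⟩
  · intro z hz
    have : (QuotientGroup.mk' W) z = 1 := by
      simpa using hZW hz
    rw [MonoidHom.comp_apply, this, map_one]
  · by_contra h
    push Not at h
    apply hW.1
    rw [eq_top_iff]
    intro q _
    have := h q
    simpa using this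



theorem norm_det_le_one {G : Type*} [Group G] [TopologicalSpace G]
    [CompactSpace G] {E : Type*} [NormedField E]
    (V : G →* GL (Fin 2) E) (hV : Continuous V) (g : G) : ‖(V g).val.det‖ ≤ 1 := by
  have hc : Continuous fun g : G => ‖(V g).val.det‖ :=
    ((Units.continuous_val.comp hV).matrix_det).norm
  obtain ⟨M, hM⟩ := (isCompact_range hc).bddAbove
  by_contra h
  push Not at h
  have h2 := tendsto_pow_atTop_atTop_of_one_lt h
  obtain ⟨n, hn⟩ := (h2.eventually (Filter.eventually_gt_atTop M)).exists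
  have h3 : ‖(V (g ^ n)).val.det‖ ≤ M := hM ⟨g ^ n, rfl⟩
  rw [map_pow, Units.val_pow_eq_pow_val, Matrix.det_pow, norm_pow] at h3
  linarith

theorem norm_det_eq_one {G : Type*} [Group G] [TopologicalSpace G]
    [CompactSpace G] {E : Type*} [NormedField E]
    (V : G →* GL (Fin 2) E) (hV : Continuous V) (g : G) : ‖(V g).val.det‖ = 1 := by
  apply le_antisymm (norm_det_le_one V hV g)
  have h1 := norm_det_le_one V hV g⁻¹
  have h2 : ‖(V g).val.det‖ * ‖(V g⁻¹).val.det‖ = 1 := by
    rw [← norm_mul, ← Matrix.det_mul, ← Units.val_mul, ← map_mul, mul_inv_cancel, map_one]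
    simp
  nlinarith [norm_nonneg (V g).val.det, norm_nonneg (V g⁻¹).val.det]

theorem pow_mem_of_open {G : Type*} [Group G] [TopologicalSpace G] [IsTopologicalGroup G]
    [CompactSpace G]
    (p : ℕ) [Fact p.Prime] (hp : p ≠ 2) {E : Type*}
    [NormedField E] [IsUltrametricDist E] [NormedAlgebra ℚ_[p] E]
    (V : G →* GL (Fin 2) E) (hV : Continuous V)
    (H : Subgroup G) (hHo : IsOpen (H : Set G))
    (hH : ∀ g ∈ H, ‖(V g).val.trace ^ 2 - 4 * (V g).val.det‖ < 1)
    (U : Subgroup G) (hU : IsOpen (U : Set G))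
    (hKU : ∀ h ∈ H, IsScal (V h) → h ∈ U) (h : G) (hh : h ∈ H) : ∃ n : ℕ, h ^ (p ^ n) ∈ U := by
  classical
  let Ad : G → Fin 2 → Fin 2 → Matrix (Fin 2) (Fin 2) E := fun g i j =>
    (V g).val * Matrix.single i j 1 * ((V g)⁻¹).val
  have hAd : Continuous Ad := by
    refine continuous_pi fun i => continuous_pi fun j => ?_
    have h1 : Continuous fun g => (V g).val := Units.continuous_val.comp hV
    have h2 : Continuous fun g => ((V g)⁻¹).val := Units.continuous_val.comp hV.inv
    exact (h1.matrix_mul continuous_const).matrix_mul h2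
  have hHc : IsClosed (H : Set G) := Subgroup.isClosed_of_isOpen H hHo
  have hC : IsCompact ((H : Set G) \ U) := (hHc.sdiff hU).isCompact
  have hC2 : IsClosed (Ad '' ((H : Set G) \ U)) := (hC.image hAd).isClosed
  have hlim : Filter.Tendsto (fun n : ℕ => Ad (h ^ (p ^ n))) Filter.atTop
      (nhds (fun i j => Matrix.single i j 1)) := by
    rw [tendsto_pi_nhds]
    intro i
    rw [tendsto_pi_nhds]
    intro j
    have := conj_pow_tendsto p hp (V h) (Matrix.single i j 1) (norm_det_eq_one V hV h) (hH h hh)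
    refine this.congr fun n => ?_
    simp only [Ad, map_pow]
  have hnot : (fun i j => Matrix.single i j 1) ∉ Ad '' ((H : Set G) \ U) := by
    rintro ⟨c, ⟨hcH, hcU⟩, hc⟩
    apply hcU
    apply hKU c hcH
    have h1 : (V c).val ∈ Set.range (Matrix.scalar (Fin 2)) := by
      rw [Matrix.mem_range_scalar_iff_commute_single]
      intro i j _
      have h2 : (V c).val * Matrix.single i j 1 * ((V c)⁻¹).val = Matrix.single i j 1 :=
        congrFun (congrFun hc i) j
      have h3 : Matrix.single i j 1 * (V c).val = (V c).val * Matrix.single i j 1 := by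
        conv_lhs => rw [← h2]
        rw [mul_assoc, ← Units.val_mul, inv_mul_cancel, Units.val_one, mul_one]
      exact h3
    obtain ⟨t, ht⟩ := h1
    exact ⟨t, ht.symm⟩
  obtain ⟨n, hn⟩ := (hlim.eventually (hC2.isOpen_compl.mem_nhds hnot)).exists
  refine ⟨n, ?_⟩
  by_contra hnU
  exact hn ⟨h ^ (p ^ n), ⟨H.pow_mem hh _, hnU⟩, rfl⟩

theorem exists_normal_sep {G : Type*} [Group G] [TopologicalSpace G] [IsTopologicalGroup G]
    [CompactSpace G] [TotallyDisconnectedSpace G]
    (H : Subgroup G) (hHo : IsOpen (H : Set G))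
    (Z : Subgroup G) (hZc : IsClosed (Z : Set G)) (h0 : G) (h0Z : h0 ∉ Z) :
    ∃ N : Subgroup G, N.Normal ∧ IsOpen (N : Set G) ∧ N ≤ H ∧ h0 ∉ Z ⊔ N := by
  have hO : IsOpen {x : G | x ∈ H ∧ h0 * x⁻¹ ∉ Z} := by
    apply hHo.inter
    have : Continuous fun x : G => h0 * x⁻¹ := by fun_prop
    exact hZc.isOpen_compl.preimage this
  obtain ⟨N, hN⟩ := ProfiniteGrp.exist_openNormalSubgroup_sub_open_nhds_of_one hO
    (by
      refine ⟨H.one_mem, ?_⟩
      simpa using h0Z)
  refine ⟨N.toSubgroup, inferInstance, N.isOpen, fun x hx => (hN hx).1, ?_⟩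
  intro hmem
  rcases Subgroup.mem_sup_of_normal_right.mp hmem with ⟨y, hy, z, hz, hyz⟩
  apply (hN hz).2
  rw [← hyz, mul_inv_cancel_right]
  exact hy


/-- the elements of `H` with scalar image -/
def scalSub {G : Type*} [Group G] {E : Type*} [Field E] (V : G →* GL (Fin 2) E)
    (H : Subgroup G) : Subgroup G where
  carrier := {h | h ∈ H ∧ IsScal (V h)}
  one_mem' := ⟨H.one_mem, 1, by simp⟩
  mul_mem' := by
    rintro a b ⟨ha, s, hs⟩ ⟨hb, t, ht⟩
    refine ⟨H.mul_mem ha hb, s * t, ?_⟩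
    rw [map_mul, Units.val_mul, hs, ht, map_mul]
  inv_mem' := by
    rintro a ⟨ha, s, hs⟩
    refine ⟨H.inv_mem ha, s⁻¹, ?_⟩
    have h1 : (V a).val * (V a⁻¹).val = 1 := by
      rw [← Units.val_mul, ← map_mul, mul_inv_cancel, map_one, Units.val_one]
    have hs0 : s ≠ 0 := by
      rintro rfl
      rw [hs] at h1
      simp at h1
    calc (V a⁻¹).val = (Matrix.scalar (Fin 2) s⁻¹ * Matrix.scalar (Fin 2) s) * (V a⁻¹).val := by
          rw [← map_mul, inv_mul_cancel₀ hs0, map_one, one_mul]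
      _ = Matrix.scalar (Fin 2) s⁻¹ * ((V a).val * (V a⁻¹).val) := by rw [mul_assoc, hs]
      _ = _ := by rw [h1, mul_one]

theorem scalSub_normal {G : Type*} [Group G] {E : Type*} [Field E] (V : G →* GL (Fin 2) E)
    (H : Subgroup G) (hHn : H.Normal) : (scalSub V H).Normal := by
  constructor
  rintro h ⟨hh, s, hs⟩ g
  refine ⟨hHn.conj_mem h hh g, s, ?_⟩
  rw [map_mul, map_mul, Units.val_mul, Units.val_mul, hs]
  have h1 : (V g).val * (V g⁻¹).val = 1 := by
    rw [← Units.val_mul, ← map_mul, mul_inv_cancel, map_one, Units.val_one]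
  have h2 : (V g).val * Matrix.scalar (Fin 2) s = Matrix.scalar (Fin 2) s * (V g).val :=
    ((Matrix.scalar_commute s (fun r => mul_comm _ _) (V g).val)).symm
  rw [h2, mul_assoc, h1, mul_one]

theorem exists_homOn {G : Type*} [Group G] [TopologicalSpace G] [IsTopologicalGroup G]
    [CompactSpace G] [TotallyDisconnectedSpace G]
    (p : ℕ) [Fact p.Prime] (hp : p ≠ 2) {E : Type*}
    [NormedField E] [IsUltrametricDist E] [NormedAlgebra ℚ_[p] E]
    (V : G →* GL (Fin 2) E) (hV : Continuous V)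
    (H : Subgroup G) (hHn : H.Normal) (hHo : IsOpen (H : Set G))
    (hH : ∀ g ∈ H, ‖(V g).val.trace ^ 2 - 4 * (V g).val.det‖ < 1)
    (Z : Subgroup G) (hZc : IsClosed (Z : Set G))
    (hKZ : ∀ h ∈ H, IsScal (V h) → h ∈ Z) (h0 : G) (h0H : h0 ∈ H) (h0Z : h0 ∉ Z) :
    ∃ φ : G → ZMod p, HomOn H p φ ∧ (∀ z ∈ Z, z ∈ H → φ z = 0) ∧ ∃ h ∈ H, φ h ≠ 0 := by
  classical
  obtain ⟨N, hNn, hNo, hNH, h0N⟩ := exists_normal_sep H hHo Z hZc h0 h0Z
  have := hNn
  have := scalSub_normal V H hHn
  let M0 : Subgroup G := scalSub V H ⊔ N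
  have hM0o : IsOpen (M0 : Set G) := Subgroup.isOpen_mono le_sup_right hNo
  have hM0n : M0.Normal := inferInstance
  have : (M0.subgroupOf H).Normal := inferInstance
  let Q := H ⧸ (M0.subgroupOf H)
  have : M0.FiniteIndex := by
    have : Finite (G ⧸ M0) := Subgroup.quotient_finite_of_isOpen M0 hM0o
    exact Subgroup.finiteIndex_of_finite_quotient
  have : Finite Q := inferInstance
  have hQ : IsPGroup p Q := by
    intro q
    obtain ⟨⟨h, hh⟩, rfl⟩ := QuotientGroup.mk_surjective q
    obtain ⟨n, hn⟩ := pow_mem_of_open p hp V hV H hHo hH M0 hM0o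
      (fun x hx hs => (le_sup_left : scalSub V H ≤ M0) ⟨hx, hs⟩) h hh
    refine ⟨n, ?_⟩
    rw [← QuotientGroup.mk_pow, QuotientGroup.eq_one_iff]
    exact hn
  let Zb : Subgroup Q := (Z.subgroupOf H).map (QuotientGroup.mk' (M0.subgroupOf H))
  have hZb : Zb ≠ ⊤ := by
    intro h
    have h1 : (QuotientGroup.mk' (M0.subgroupOf H)) ⟨h0, h0H⟩ ∈ Zb := by rw [h]; trivial
    obtain ⟨⟨z, hzH⟩, hz, hz2⟩ := h1
    have h3 : (⟨z, hzH⟩ : H)⁻¹ * ⟨h0, h0H⟩ ∈ M0.subgroupOf H := by
      rw [← QuotientGroup.eq]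
      exact hz2
    have h4 : z⁻¹ * h0 ∈ M0 := h3
    apply h0N
    have h5 : M0 ≤ Z ⊔ N := by
      apply sup_le _ le_sup_right
      intro x hx
      exact (le_sup_left : Z ≤ Z ⊔ N) (hKZ x hx.1 hx.2)
    have h6 : z ∈ Z ⊔ N := (le_sup_left : Z ≤ Z ⊔ N) hz
    have h7 := (Z ⊔ N).mul_mem h6 (h5 h4)
    rwa [mul_inv_cancel_left] at h7
  obtain ⟨ψ, hψZ, q, hq⟩ := exists_hom_of_pgroup hQ Zb hZb
  let φ : G → ZMod p := fun g => if hg : g ∈ H then
    Multiplicative.toAdd (ψ (QuotientGroup.mk' (M0.subgroupOf H) ⟨g, hg⟩)) else 0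
  have hφ : ∀ g (hg : g ∈ H), φ g =
      Multiplicative.toAdd (ψ (QuotientGroup.mk' (M0.subgroupOf H) ⟨g, hg⟩)) := fun g hg => by
    simp only [φ, dif_pos hg]
  refine ⟨φ, ⟨?_, ?_⟩, ?_, ?_⟩
  · intro g hg h hh
    rw [hφ g hg, hφ h hh, hφ (g * h) (H.mul_mem hg hh), ← toAdd_mul, ← map_mul, ← map_mul]
    rfl
  · refine ⟨M0, hM0o, fun u hu huH => ?_⟩
    rw [hφ u huH]
    have : (QuotientGroup.mk' (M0.subgroupOf H)) ⟨u, huH⟩ = 1 := by
      rw [QuotientGroup.mk'_apply, QuotientGroup.eq_one_iff]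
      exact hu
    rw [this, map_one]
    rfl
  · intro z hz hzH
    rw [hφ z hzH, hψZ _ ⟨⟨z, hzH⟩, hz, rfl⟩]
    rfl
  · obtain ⟨⟨h, hh⟩, rfl⟩ := QuotientGroup.mk_surjective q
    refine ⟨h, hh, ?_⟩
    rw [hφ h hh]
    intro h1
    exact hq (Multiplicative.toAdd.injective h1)


theorem isScal_iff {E : Type*} [Field E] (a : GL (Fin 2) E) :
    IsScal a ↔ a.val 0 1 = 0 ∧ a.val 1 0 = 0 ∧ a.val 0 0 = a.val 1 1 := by
  constructor
  · rintro ⟨t, ht⟩
    rw [ht]
    simp
  · rintro ⟨h1, h2, h3⟩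
    refine ⟨a.val 0 0, ?_⟩
    ext i j
    fin_cases i <;> fin_cases j <;> simp [h1, h2, h3]

theorem commute_nonscalar {E : Type*} [Field E] (A B : Matrix (Fin 2) (Fin 2) E)
    (hA : ¬ (A 0 1 = 0 ∧ A 1 0 = 0 ∧ A 0 0 = A 1 1)) (hc : B * A = A * B) :
    ∃ y, B 0 1 = y * A 0 1 ∧ B 1 0 = y * A 1 0 ∧ B 0 0 - B 1 1 = y * (A 0 0 - A 1 1) := by
  have e00 := congrFun (congrFun hc 0) 0
  have e01 := congrFun (congrFun hc 0) 1
  have e10 := congrFun (congrFun hc 1) 0
  simp only [Matrix.mul_apply, Fin.sum_univ_two] at e00 e01 e10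
  by_cases h1 : A 0 1 = 0
  · by_cases h2 : A 1 0 = 0
    · have h3 : A 0 0 - A 1 1 ≠ 0 := fun h => hA ⟨h1, h2, sub_eq_zero.mp h⟩
      refine ⟨(B 0 0 - B 1 1) / (A 0 0 - A 1 1), ?_, ?_, ?_⟩
      · rw [h1, mul_zero]
        rw [h1] at e01
        have : B 0 1 * (A 0 0 - A 1 1) = 0 := by linear_combination -e01
        exact (mul_eq_zero.mp this).resolve_right h3
      · rw [h2, mul_zero]
        rw [h2] at e10
        have : B 1 0 * (A 0 0 - A 1 1) = 0 := by linear_combination e10
        exact (mul_eq_zero.mp this).resolve_right h3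
      · field_simp
    · refine ⟨B 1 0 / A 1 0, ?_, ?_, ?_⟩
      · field_simp
        linear_combination e00
      · field_simp
      · field_simp
        linear_combination -e10
  · refine ⟨B 0 1 / A 0 1, ?_, ?_, ?_⟩
    · field_simp
    · field_simp
      linear_combination -e00
    · field_simp
      linear_combination e01

theorem commute_of_both {E : Type*} [Field E] (A B C : Matrix (Fin 2) (Fin 2) E)
    (hA : ¬ (A 0 1 = 0 ∧ A 1 0 = 0 ∧ A 0 0 = A 1 1)) (hB : B * A = A * B)
    (hC : C * A = A * C) : B * C = C * B := by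
  obtain ⟨y, y1, y2, y3⟩ := commute_nonscalar A B hA hB
  obtain ⟨z, z1, z2, z3⟩ := commute_nonscalar A C hA hC
  ext i j
  fin_cases i <;> fin_cases j <;>
    simp only [Matrix.mul_apply, Fin.sum_univ_two, Fin.zero_eta, Fin.mk_one]
  · rw [y1, y2, z1, z2]; ring
  · rw [y1, z1]
    linear_combination z * A 0 1 * y3 - y * A 0 1 * z3
  · rw [y2, z2]
    linear_combination - z * A 1 0 * y3 + y * A 1 0 * z3
  · rw [y1, y2, z1, z2]; ring

theorem mem_line {E : Type*} [Field E] (N : Matrix (Fin 2) (Fin 2) E) (hN : N ≠ 0)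
    (v u : Fin 2 → E) (hv : v ≠ 0) (h1 : N.mulVec v = 0) (h2 : N.mulVec u = 0) :
    ∃ a : E, u = a • v := by
  have hd : v 0 * u 1 - v 1 * u 0 = 0 := by
    by_contra hd
    apply hN
    ext i j
    have e1 := congrFun h1 i
    have e2 := congrFun h2 i
    simp only [Matrix.mulVec, dotProduct, Fin.sum_univ_two, Pi.zero_apply] at e1 e2
    have f0 : N i 0 * (v 0 * u 1 - v 1 * u 0) = 0 := by
      linear_combination u 1 * e1 - v 1 * e2
    have f1 : N i 1 * (v 0 * u 1 - v 1 * u 0) = 0 := by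
      linear_combination - u 0 * e1 + v 0 * e2
    fin_cases j
    · exact (mul_eq_zero.mp f0).resolve_right hd
    · exact (mul_eq_zero.mp f1).resolve_right hd
  by_cases hv0 : v 0 = 0
  · have hv1 : v 1 ≠ 0 := by
      intro h
      apply hv
      ext i
      fin_cases i
      · exact hv0
      · exact h
    refine ⟨u 1 / v 1, ?_⟩
    ext i
    fin_cases i
    · simp only [Fin.zero_eta, Pi.smul_apply, smul_eq_mul, hv0, mul_zero]
      rw [hv0] at hd
      have : v 1 * u 0 = 0 := by linear_combination -hd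
      exact (mul_eq_zero.mp this).resolve_left hv1
    · simp only [Fin.mk_one, Pi.smul_apply, smul_eq_mul]
      field_simp
  · refine ⟨u 0 / v 0, ?_⟩
    ext i
    fin_cases i
    · simp only [Fin.zero_eta, Pi.smul_apply, smul_eq_mul]
      field_simp
    · simp only [Fin.mk_one, Pi.smul_apply, smul_eq_mul]
      field_simp
      linear_combination hd

theorem group_part {G : Type*} [Group G] [TopologicalSpace G] [IsTopologicalGroup G]
    [CompactSpace G] [TotallyDisconnectedSpace G]
    (p : ℕ) [Fact p.Prime] (hp : p ≠ 2) {E : Type*}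
    [NormedField E] [IsUltrametricDist E] [NormedAlgebra ℚ_[p] E]
    (V : G →* GL (Fin 2) E) (hV : Continuous V)
    (H : Subgroup G) (hHn : H.Normal) (hHo : IsOpen (H : Set G))
    (hH : ∀ g ∈ H, ‖(V g).val.trace ^ 2 - 4 * (V g).val.det‖ < 1)
    (φ₀ : G → ZMod p) (hφ₀ : HomOn H p φ₀)
    (hφ₀c : ∀ g : G, ∀ h ∈ H, φ₀ (g * h * g⁻¹) = φ₀ h)
    (key : ∀ φ : G → ZMod p, HomOn H p φ → (∀ h ∈ H, IsScal (V h) → φ h = 0) →
      ∃ a : ZMod p, ∀ h ∈ H, φ h = a * φ₀ h) :
    (∃ v : Fin 2 → E, v ≠ 0 ∧ ∀ g : G, ∃ a : E, (V g).val.mulVec v = a • v) ∨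
    (∀ g h : G, V g * V h = V h * V g) ∨
    (∃ U : Subgroup G, IsOpen (U : Set G) ∧ ∀ g ∈ U, IsScal (V g)) := by
  classical
  have hcV : Continuous fun g => (V g).val := Units.continuous_val.comp hV
  have hHc : IsClosed (H : Set G) := Subgroup.isClosed_of_isOpen H hHo
  have MAX : ∀ Z : Subgroup G, IsClosed (Z : Set G) → Z ≤ H →
      (∀ h ∈ H, IsScal (V h) → h ∈ Z) → ∀ h0 ∈ H, h0 ∉ Z →
      (∀ z ∈ Z, φ₀ z = 0) ∧ ∃ h ∈ H, φ₀ h ≠ 0 := by
    intro Z hZc hZH hKZ h0 h0H h0Z
    obtain ⟨φ, hφ, hφZ, h1, h1H, hφ1⟩ :=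
      exists_homOn p hp V hV H hHn hHo hH Z hZc hKZ h0 h0H h0Z
    obtain ⟨a, ha⟩ := key φ hφ (fun h hh hs => hφZ h (hKZ h hh hs) hh)
    have ha0 : a ≠ 0 := by
      rintro rfl
      apply hφ1
      rw [ha h1 h1H, zero_mul]
    refine ⟨fun z hz => ?_, h1, h1H, fun h => hφ1 ?_⟩
    · have := ha z (hZH hz)
      rw [hφZ z hz (hZH hz)] at this
      exact (mul_eq_zero.mp this.symm).resolve_left ha0
    · rw [ha h1 h1H, h, mul_zero]
  by_cases hK : ∀ h ∈ H, IsScal (V h)
  · exact Or.inr (Or.inr ⟨H, hHo, hK⟩)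
  push Not at hK
  obtain ⟨h1, h1H, h1s⟩ := hK
  have hKc : IsClosed ((scalSub V H : Subgroup G) : Set G) := by
    have : ((scalSub V H : Subgroup G) : Set G) =
        (H : Set G) ∩ {g | (V g).val 0 1 = 0} ∩ {g | (V g).val 1 0 = 0} ∩
          {g | (V g).val 0 0 = (V g).val 1 1} := by
      ext g
      simp only [scalSub, Subgroup.coe_set_mk, Submonoid.coe_set_mk, Subsemigroup.coe_set_mk,
        isScal_iff, Set.mem_inter_iff, SetLike.mem_coe]
      constructor
      · rintro ⟨a, b, c, d⟩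
        exact ⟨⟨⟨a, b⟩, c⟩, d⟩
      · rintro ⟨⟨⟨a, b⟩, c⟩, d⟩
        exact ⟨a, b, c, d⟩
    rw [this]
    refine ((hHc.inter ?_).inter ?_).inter ?_
    · exact isClosed_eq (hcV.matrix_elem 0 1) continuous_const
    · exact isClosed_eq (hcV.matrix_elem 1 0) continuous_const
    · exact isClosed_eq (hcV.matrix_elem 0 0) (hcV.matrix_elem 1 1)
  obtain ⟨hK0, γ, hγH, hγ⟩ := MAX (scalSub V H) hKc (fun x hx => hx.1)
    (fun h hh hs => ⟨hh, hs⟩) h1 h1H (fun h => h1s h.2)
  have hAs : ¬ IsScal (V γ) := fun h => hγ (hK0 γ ⟨hγH, h⟩)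
  rw [isScal_iff] at hAs
  -- `V(H)` commutes with `V γ`
  have hcomm : ∀ h ∈ H, V h * V γ = V γ * V h := by
    by_contra hne
    push Not at hne
    obtain ⟨h2, h2H, h2n⟩ := hne
    let Z : Subgroup G :=
      { carrier := {h | h ∈ H ∧ V h * V γ = V γ * V h}
        one_mem' := ⟨H.one_mem, by simp⟩
        mul_mem' := by
          rintro a b ⟨ha, ha2⟩ ⟨hb, hb2⟩
          refine ⟨H.mul_mem ha hb, ?_⟩
          rw [map_mul, mul_assoc, hb2, ← mul_assoc, ha2, mul_assoc]
        inv_mem' := by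
          rintro a ⟨ha, ha2⟩
          refine ⟨H.inv_mem ha, ?_⟩
          rw [map_inv, inv_mul_eq_iff_eq_mul, ← mul_assoc, ha2, mul_inv_cancel_right] }
    have hZc : IsClosed (Z : Set G) := by
      have : (Z : Set G) = (H : Set G) ∩ {g | (V g).val * (V γ).val = (V γ).val * (V g).val} := by
        ext g
        constructor
        · rintro ⟨a, b⟩
          exact ⟨a, congrArg Units.val b⟩
        · rintro ⟨a, b⟩
          exact ⟨a, Units.ext b⟩
      rw [this]
      exact hHc.inter (isClosed_eq (hcV.matrix_mul continuous_const)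
        (continuous_const.matrix_mul hcV))
    have := (MAX Z hZc (fun x hx => hx.1) (fun h hh hs => ⟨hh, by
      obtain ⟨t, ht⟩ := hs
      apply Units.ext
      rw [Units.val_mul, Units.val_mul, ht]
      exact (Matrix.scalar_commute t (fun r => mul_comm _ _) (V γ).val)⟩) h2 h2H
      (fun h => h2n h.2)).1 γ ⟨hγH, rfl⟩
    exact hγ this
  have h2E : (2 : E) ≠ 0 := by
    have : CharZero E := charZero_of_injective_algebraMap (algebraMap ℚ_[p] E).injective
    exact two_ne_zero
  set A : Matrix (Fin 2) (Fin 2) E := (V γ).val with hA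
  have hgB : ∀ g : G, ∃ y : E, (V (g * γ * g⁻¹)).val 0 1 = y * A 0 1 ∧
      (V (g * γ * g⁻¹)).val 1 0 = y * A 1 0 ∧
      (V (g * γ * g⁻¹)).val 0 0 - (V (g * γ * g⁻¹)).val 1 1 = y * (A 0 0 - A 1 1) := by
    intro g
    refine commute_nonscalar A _ hAs ?_
    have := hcomm (g * γ * g⁻¹) (hHn.conj_mem γ hγH g)
    exact congrArg Units.val this
  have hconj : ∀ g : G, (V (g * γ * g⁻¹)).val = (V g).val * A * (V g⁻¹).val := by
    intro g
    rw [map_mul, map_mul, Units.val_mul, Units.val_mul]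
  have hginv : ∀ g : G, (V g⁻¹).val * (V g).val = 1 := by
    intro g
    rw [← Units.val_mul, ← map_mul, inv_mul_cancel, map_one, Units.val_one]
  have hginv' : ∀ g : G, (V g).val * (V g⁻¹).val = 1 := by
    intro g
    rw [← Units.val_mul, ← map_mul, mul_inv_cancel, map_one, Units.val_one]
  have htr : ∀ g : G, (V (g * γ * g⁻¹)).val.trace = A.trace := by
    intro g
    rw [hconj, Matrix.trace_mul_comm, ← mul_assoc, hginv, one_mul]
  have hdet : ∀ g : G, (V (g * γ * g⁻¹)).val.det = A.det := by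
    intro g
    have h3 : (V g).val.det * (V g⁻¹).val.det = 1 := by
      rw [← Matrix.det_mul, hginv', Matrix.det_one]
    rw [hconj, Matrix.det_mul, Matrix.det_mul]
    linear_combination A.det * h3
  have hyD : ∀ g : G, ∀ y : E, (V (g * γ * g⁻¹)).val 0 1 = y * A 0 1 →
      (V (g * γ * g⁻¹)).val 1 0 = y * A 1 0 →
      (V (g * γ * g⁻¹)).val 0 0 - (V (g * γ * g⁻¹)).val 1 1 = y * (A 0 0 - A 1 1) →
      (y ^ 2 - 1) * ((A 0 0 - A 1 1) ^ 2 + 4 * A 0 1 * A 1 0) = 0 := by
    intro g y e1 e2 e3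
    have t := htr g
    have d := hdet g
    rw [Matrix.trace_fin_two, Matrix.trace_fin_two] at t
    rw [Matrix.det_fin_two, Matrix.det_fin_two] at d
    set B := (V (g * γ * g⁻¹)).val with hB
    have e4 : (B 0 0 - B 1 1) ^ 2 + 4 * B 0 1 * B 1 0 =
        (A 0 0 - A 1 1) ^ 2 + 4 * A 0 1 * A 1 0 := by
      linear_combination (B 0 0 + B 1 1 + A 0 0 + A 1 1) * t - 4 * d
    rw [e1, e2, e3] at e4
    linear_combination e4
  by_cases hD : (A 0 0 - A 1 1) ^ 2 + 4 * A 0 1 * A 1 0 = 0
  · -- nilpotent case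
    left
    let N : Matrix (Fin 2) (Fin 2) E := !![A 0 0 - A 1 1, 2 * A 0 1; 2 * A 1 0, A 1 1 - A 0 0]
    have hNN : N * N = 0 := by
      ext i j
      fin_cases i <;> fin_cases j <;> simp [N, Matrix.mul_apply, Fin.sum_univ_two]
      · linear_combination hD
      · ring
      · ring
      · linear_combination hD
    have hN0 : N ≠ 0 := by
      intro h
      apply hAs
      have n0 := congrFun (congrFun h 0) 1
      have n1 := congrFun (congrFun h 1) 0
      have n2 := congrFun (congrFun h 0) 0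
      simp only [N, Matrix.of_apply, Matrix.cons_val', Matrix.cons_val_zero, Matrix.cons_val_one,
        Matrix.cons_val_fin_one, Matrix.zero_apply, mul_eq_zero, h2E, false_or] at n0 n1 n2
      exact ⟨n0, n1, sub_eq_zero.mp n2⟩
    obtain ⟨w, hw⟩ : ∃ w : Fin 2 → E, N.mulVec w ≠ 0 := by
      by_contra hall
      push Not at hall
      apply hN0
      ext i j
      have := congrFun (hall (Pi.single j 1)) i
      simpa using this
    refine ⟨N.mulVec w, hw, fun g => ?_⟩
    obtain ⟨y, e1, e2, e3⟩ := hgB g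
    have hgN : (V g).val * N * (V g⁻¹).val = y • N := by
      have hNA : N = (2 : E) • A - Matrix.scalar (Fin 2) A.trace := by
        ext i j
        fin_cases i <;> fin_cases j <;>
          simp [N, Matrix.trace_fin_two] <;> ring
      have h4 : (V g).val * N * (V g⁻¹).val =
          (2 : E) • (V (g * γ * g⁻¹)).val - Matrix.scalar (Fin 2) A.trace := by
        have h5 : (V g).val * Matrix.scalar (Fin 2) A.trace * (V g⁻¹).val =
            Matrix.scalar (Fin 2) A.trace := by
          have h2 : (V g).val * Matrix.scalar (Fin 2) A.trace =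
              Matrix.scalar (Fin 2) A.trace * (V g).val :=
            ((Matrix.scalar_commute A.trace (fun r => mul_comm _ _) (V g).val)).symm
          rw [h2, mul_assoc, hginv', mul_one]
        rw [hconj, hNA, mul_sub, sub_mul, h5, mul_smul_comm, smul_mul_assoc]
      rw [h4]
      have t := htr g
      rw [Matrix.trace_fin_two, Matrix.trace_fin_two] at t
      clear h4
      generalize (V (g * γ * g⁻¹)).val = B at e1 e2 e3 t ⊢
      ext i j
      fin_cases i <;> fin_cases j <;>
        simp [N, Matrix.trace_fin_two]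
      · linear_combination e3 + t
      · linear_combination 2 * e1
      · linear_combination 2 * e2
      · linear_combination - e3 + t
    have hy0 : y ≠ 0 := by
      rintro rfl
      rw [zero_smul] at hgN
      apply hN0
      calc N = ((V g⁻¹).val * (V g).val) * N * ((V g⁻¹).val * (V g).val) := by
            rw [hginv, one_mul, mul_one]
        _ = (V g⁻¹).val * ((V g).val * N * (V g⁻¹).val) * (V g).val := by
            simp only [mul_assoc]
        _ = 0 := by rw [hgN]; simp
    have hgN2 : (V g).val * N = y • (N * (V g).val) := by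
      calc (V g).val * N = (V g).val * N * ((V g⁻¹).val * (V g).val) := by
            rw [hginv, mul_one]
        _ = ((V g).val * N * (V g⁻¹).val) * (V g).val := by simp only [mul_assoc]
        _ = _ := by rw [hgN, smul_mul_assoc]
    have hker : N.mulVec ((V g).val.mulVec (N.mulVec w)) = 0 := by
      have h6 : ((V g).val * N).mulVec (N.mulVec w) = 0 := by
        rw [Matrix.mulVec_mulVec, mul_assoc, hNN, mul_zero, Matrix.zero_mulVec]
      rw [hgN2, Matrix.smul_mulVec, smul_eq_zero] at h6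
      have h7 := h6.resolve_left hy0
      rwa [← Matrix.mulVec_mulVec] at h7
    have hker2 : N.mulVec (N.mulVec w) = 0 := by
      rw [Matrix.mulVec_mulVec, hNN, Matrix.zero_mulVec]
    exact mem_line N hN0 _ _ hw hker2 hker
  · -- semisimple case
    right; left
    have hcA : ∀ g : G, (V g).val * A = A * (V g).val := by
      intro g
      obtain ⟨y, e1, e2, e3⟩ := hgB g
      have hy := (mul_eq_zero.mp (hyD g y e1 e2 e3)).resolve_right hD
      have hy2 : (y - 1) * (y + 1) = 0 := by linear_combination hy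
      have t := htr g
      rw [Matrix.trace_fin_two, Matrix.trace_fin_two] at t
      rcases mul_eq_zero.mp hy2 with h | h
      · have hy1 : y = 1 := sub_eq_zero.mp h
        have hBA : (V (g * γ * g⁻¹)).val = A := by
          rw [hy1] at e1 e2 e3
          have h8 : (V (g * γ * g⁻¹)).val 0 0 = A 0 0 := by
            apply mul_left_cancel₀ h2E
            linear_combination e3 + t
          have h9 : (V (g * γ * g⁻¹)).val 1 1 = A 1 1 := by
            apply mul_left_cancel₀ h2E
            linear_combination - e3 + t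
          ext i j
          fin_cases i <;> fin_cases j
          · exact h8
          · simpa using e1
          · simpa using e2
          · exact h9
        have := hconj g
        rw [hBA] at this
        calc (V g).val * A = ((V g).val * A * (V g⁻¹).val) * (V g).val := by
              rw [mul_assoc, hginv, mul_one]
          _ = A * (V g).val := by rw [← this]
      · exfalso
        have hy1 : y = -1 := eq_neg_of_add_eq_zero_left h
        rw [hy1] at e1 e2 e3
        have h8 : (V (g * γ * g⁻¹)).val 0 0 = A 1 1 := by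
          apply mul_left_cancel₀ h2E
          linear_combination e3 + t
        have h9 : (V (g * γ * g⁻¹)).val 1 1 = A 0 0 := by
          apply mul_left_cancel₀ h2E
          linear_combination - e3 + t
        have hsc : IsScal (V (g * γ * g⁻¹ * γ)) := by
          refine ⟨A.det, ?_⟩
          rw [map_mul V (g * γ * g⁻¹) γ, Units.val_mul, ← hA, Matrix.det_fin_two]
          clear e3 t
          generalize (V (g * γ * g⁻¹)).val = B at e1 e2 h8 h9 ⊢
          ext i j
          fin_cases i <;> fin_cases j <;>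
            simp [Matrix.mul_apply, Fin.sum_univ_two, e1, e2, h8, h9] <;> ring
        have hcj := hHn.conj_mem γ hγH g
        have h10 := hK0 _ ⟨H.mul_mem hcj hγH, hsc⟩
        rw [hφ₀.add _ hcj _ hγH, hφ₀c g γ hγH] at h10
        have h11 : (2 : ZMod p) * φ₀ γ = 0 := by rw [two_mul]; exact h10
        have h12 : (2 : ZMod p) ≠ 0 := by
          intro h13
          have h14 : ((2 : ℕ) : ZMod p) = 0 := by exact_mod_cast h13
          rw [ZMod.natCast_eq_zero_iff] at h14
          exact hp ((Nat.prime_dvd_prime_iff_eq Fact.out Nat.prime_two).mp h14)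
        exact hγ ((mul_eq_zero.mp h11).resolve_left h12)
    intro g h
    apply Units.ext
    exact commute_of_both A _ _ hAs (hcA g) (hcA h)

end Helper27.FMEven
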